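import Pool.Agent.W537.TT.Gen

/-!
# If the logarithmic derivatives are defined over the algebraic numbers, the closure is a torsor
-/

set_option linter.unusedSectionVars false

namespace Pool.Agent.W537.TT

open Pool.Agent.W537.DB MvPolynomial

noncomputable section

variable {ι : Type} [Fintype ι] [DecidableEq ι]

/-- The complex matrix of an algebraic matrix. -/
abbrev mC (x : Matrix ι ι Qb) : Matrix ι ι ℂ := x.map (algebraMap Qb ℂ)

theorem mC_mul (x y : Matrix ι ι Qb) : mC (x * y) = mC x * mC y := Matrix.map_mul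

theorem mC_one : mC (1 : Matrix ι ι Qb) = 1 := Matrix.map_one _ (map_zero _) (map_one _)

theorem mC_det (x : Matrix ι ι Qb) : (mC x).det = algebraMap Qb ℂ x.det := by
  rw [RingHom.map_det]
  rfl

theorem mC_unit {x : Matrix ι ι Qb} (hx : IsUnit (mC x)) : IsUnit x := by
  rw [Matrix.isUnit_iff_isUnit_det, isUnit_iff_ne_zero] at hx ⊢
  rw [mC_det] at hx
  intro h
  exact hx (by rw [h, map_zero])

theorem unit_mC {x : Matrix ι ι Qb} (hx : IsUnit x) : IsUnit (mC x) := by
  rw [Matrix.isUnit_iff_isUnit_det, isUnit_iff_ne_zero] at hx ⊢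
  rw [mC_det]
  intro h
  exact hx ((map_eq_zero_iff _ (algebraMap Qb ℂ).injective).1 h)

theorem mC_inv {x : Matrix ι ι Qb} (hx : IsUnit x) : mC x⁻¹ = (mC x)⁻¹ := by
  have h1 : mC x⁻¹ * mC x = 1 := by
    rw [← mC_mul, Matrix.nonsing_inv_mul _ ((Matrix.isUnit_iff_isUnit_det _).1 hx), mC_one]
  exact (Matrix.inv_eq_left_inv h1).symm

/-- The value of a polynomial with algebraic coefficients at an algebraic point. -/
theorem aeval_mC (x : Matrix ι ι Qb) (p : MvPolynomial (ι × ι) Qb) :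
    aeval (vc (mC x)) p = algebraMap Qb ℂ (aeval (vc x) p) :=
  aeval_algebraMap_apply ℂ (vc x) p

theorem logSpace_mul (h : Matrix ι ι Qb) (hh : IsUnit h) {C : Matrix ι ι ℂ} (hC : IsUnit C) :
    logSpace (mC h * C) = logSpace C := by
  have key : ∀ D : Derivation ℤ ℂ ℂ, (mC h * C)⁻¹ * (mC h * C).map D = C⁻¹ * C.map D := by
    intro D
    have h1 : (mC h).map D = 0 := by
      ext i j
      exact der_Qb D (h i j)
    rw [der_mul', h1, Matrix.zero_mul, zero_add, Matrix.mul_inv_rev, Matrix.mul_assoc,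
      ← Matrix.mul_assoc (mC h)⁻¹, inv_mul' (unit_mC hh), Matrix.one_mul]
  ext y
  constructor
  · rintro ⟨D, rfl⟩
    exact ⟨D, key D⟩
  · rintro ⟨D, rfl⟩
    exact ⟨D, (key D).symm⟩

/-- A basis of the space of the logarithmic derivatives which consists of algebraic matrices. -/
theorem exists_alg_basis {C : Matrix ι ι ℂ} (hL : AlgSpan (logSpace C)) :
    ∃ x : Fin (Module.finrank ℂ (logSpace C)) → Matrix ι ι Qb, (∀ i, x i ∈ algLog C) ∧
      LinearIndependent Qb fun i => vc (x i) := by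
  classical
  set S : Set (Matrix ι ι ℂ) := {y | y ∈ logSpace C ∧ ∀ i j, y i j ∈ Qb} with hS
  have hspan : Submodule.span ℂ S = logSpace C :=
    le_antisymm (Submodule.span_le.2 fun y hy => hy.1) hL
  obtain ⟨b, hbS, hbspan, hbli⟩ := exists_linearIndependent ℂ S
  have hbfin : b.Finite := hbli.setFinite
  have : Fintype b := hbfin.fintype
  have hcard : Module.finrank ℂ (logSpace C) = Fintype.card b := by
    rw [← hspan, ← hbspan, finrank_span_set_eq_card hbli, Set.toFinset_card]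
  let e : Fin (Module.finrank ℂ (logSpace C)) ≃ b := Fintype.equivOfCardEq (by
    rw [Fintype.card_fin, hcard])
  let x : Fin (Module.finrank ℂ (logSpace C)) → Matrix ι ι Qb := fun i =>
    Matrix.of fun r s => ⟨(e i : Matrix ι ι ℂ) r s, (hbS (e i).2).2 r s⟩
  have hx : ∀ i, mC (x i) = (e i : Matrix ι ι ℂ) := fun i => rfl
  refine ⟨x, fun i => ?_, ?_⟩
  · change mC (x i) ∈ logSpace C
    rw [hx]
    exact (hbS (e i).2).1
  · rw [Fintype.linearIndependent_iff]
    intro q hq i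
    have h1 : ∑ i, (algebraMap Qb ℂ (q i)) • (e i : Matrix ι ι ℂ) = 0 := by
      ext r s
      have h2 := congrArg (algebraMap Qb ℂ) (congrFun hq (r, s))
      rw [Finset.sum_apply, map_sum] at h2
      rw [Matrix.sum_apply, Matrix.zero_apply]
      have h3 : algebraMap Qb ℂ ((0 : ι × ι → Qb) (r, s)) = 0 := map_zero _
      rw [h3] at h2
      rw [← h2]
      refine Finset.sum_congr rfl fun j _ => ?_
      rw [Pi.smul_apply, smul_eq_mul, map_mul]
      rfl
    have h2 : LinearIndependent ℂ fun i => (e i : Matrix ι ι ℂ) := hbli.comp e e.injective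
    have h3 := Fintype.linearIndependent_iff.1 h2 _ h1 i
    exact (map_eq_zero_iff _ (algebraMap Qb ℂ).injective).1 h3

/-- A stable ideal between the ideal of the closure and the maximal ideal of an invertible algebraic
point of the closure is the ideal of the closure. -/
theorem minimal {C : Matrix ι ι ℂ} (hC : IsUnit C) (hL : AlgSpan (logSpace C))
    {w : Matrix ι ι Qb} (hw : IsUnit w) (J : Ideal (MvPolynomial (ι × ι) Qb))
    (hJ1 : ∀ p : MvPolynomial (ι × ι) Qb, aeval (vc C) p = 0 → p ∈ J)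
    (hJ2 : ∀ p ∈ J, aeval (vc w) p = 0)
    (hJ3 : ∀ x ∈ algLog C, ∀ p ∈ J, Dx x p ∈ J) : ∀ p ∈ J, aeval (vc C) p = 0 := by
  let 𝔪 : Ideal (MvPolynomial (ι × ι) Qb) :=
    RingHom.ker (aeval (vc w) : MvPolynomial (ι × ι) Qb →ₐ[Qb] Qb)
  have h𝔪 : 𝔪.IsPrime := RingHom.ker_isPrime _
  obtain ⟨𝔭, h𝔭, h𝔭𝔪⟩ := Ideal.exists_minimalPrimes_le (I := J) (J := 𝔪) (fun p hp => hJ2 p hp)
  have hpr : 𝔭.IsPrime := h𝔭.1.1
  obtain ⟨x, hx1, hx2⟩ := exists_alg_basis hL
  have hst : ∀ i, ∀ p ∈ 𝔭, Dx (x i) p ∈ 𝔭 := by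
    intro i p hp
    exact stable_min ((Dx (x i)).restrictScalars ℤ) (fun a ha => hJ3 _ (hx1 i) a ha) h𝔭 hp
  have hdet : (gm Qb : Matrix ι ι (MvPolynomial (ι × ι) Qb)).det ∉ 𝔭 := by
    intro h
    have h1 : aeval (vc w) (gm Qb : Matrix ι ι (MvPolynomial (ι × ι) Qb)).det = 0 := h𝔭𝔪 h
    rw [aeval_det] at h1
    exact ((Matrix.isUnit_iff_isUnit_det _).1 hw).ne_zero h1
  obtain ⟨F, _, _, c, hc⟩ := exists_generic 𝔭
  have h1 := trdeg_ge x hx2 𝔭 hst hdet c hc
  have h2 := trdegK Qb der_Qb (vc C)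
  rw [← finrank_logSpace hC] at h2
  rw [← h2] at h1
  intro p hp
  exact cmp (vc C) c (fun q hq => (hc q).2 (h𝔭.1.2 (hJ1 q hq))) h1 p ((hc p).2 (h𝔭.1.2 hp))

/-- The polynomial `p (h X)`. -/
def lsub (h : Matrix ι ι Qb) (p : MvPolynomial (ι × ι) Qb) : MvPolynomial (ι × ι) Qb :=
  aeval (vc (h.map MvPolynomial.C * gm Qb)) p

theorem aeval_lsub {B : Type} [CommRing B] [Algebra Qb B] (h : Matrix ι ι Qb)
    (p : MvPolynomial (ι × ι) Qb) (z : Matrix ι ι B) :
    aeval (vc z) (lsub h p) = aeval (vc (h.map (algebraMap Qb B) * z)) p := by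
  unfold lsub
  rw [comp_aeval_apply (vc (h.map MvPolynomial.C * gm Qb)) (aeval (vc z)) p]
  congr 2
  funext n
  change aeval (vc z) ((h.map MvPolynomial.C * gm Qb :
    Matrix ι ι (MvPolynomial (ι × ι) Qb)) n.1 n.2) = (h.map (algebraMap Qb B) * z) n.1 n.2
  rw [Matrix.mul_apply, Matrix.mul_apply, map_sum]
  refine Finset.sum_congr rfl fun k _ => ?_
  rw [map_mul, Matrix.map_apply, Matrix.map_apply, algHom_C]
  change _ * aeval (vc z) (X (k, n.2)) = _
  rw [aeval_X]
  rfl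

theorem step1 {C : Matrix ι ι ℂ} (hC : IsUnit C) (hL : AlgSpan (logSpace C))
    {w z : Matrix ι ι Qb} (hw : IsUnit w) (hz : IsUnit z) (hwc : vc (mC w) ∈ clos (vc C))
    (hzc : vc (mC z) ∈ clos (vc C)) : vc (mC (w * z⁻¹) * C) ∈ clos (vc C) := by
  set h : Matrix ι ι Qb := w * z⁻¹ with hh
  have hzi : IsUnit z⁻¹ := (Matrix.isUnit_nonsing_inv_iff).2 hz
  have hu : IsUnit h := hw.mul hzi
  have hhz : h * z = w := by
    rw [hh, Matrix.mul_assoc, Matrix.nonsing_inv_mul _ ((Matrix.isUnit_iff_isUnit_det _).1 hz),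
      Matrix.mul_one]
  have hC2 : IsUnit (mC h * C) := (unit_mC hu).mul hC
  have hlog := logSpace_mul h hu hC
  have hL2 : AlgSpan (logSpace (mC h * C)) := by rw [hlog]; exact hL
  have halg : algLog (mC h * C) = algLog C := by
    unfold algLog
    rw [hlog]
  let J1 : Ideal (MvPolynomial (ι × ι) Qb) :=
    RingHom.ker (aeval (vc (mC h * C)) : MvPolynomial (ι × ι) Qb →ₐ[Qb] ℂ)
  let J2 : Ideal (MvPolynomial (ι × ι) Qb) :=
    RingHom.ker (aeval (vc C) : MvPolynomial (ι × ι) Qb →ₐ[Qb] ℂ)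
  intro p hp
  refine minimal hC2 hL2 hw (J1 ⊔ J2) (fun q hq => ?_) (fun q hq => ?_) (fun x hx q hq => ?_) p ?_
  · exact (le_sup_left : J1 ≤ J1 ⊔ J2) hq
  · obtain ⟨q1, hq1, q2, hq2, rfl⟩ := Submodule.mem_sup.1 hq
    have e1 : aeval (vc w) q1 = 0 := by
      have h1 : aeval (vc (mC h * C)) q1 = 0 := hq1
      have h2 : aeval (vc C) (lsub h q1) = 0 := by rw [aeval_lsub]; exact h1
      have h3 := hzc _ h2
      rw [aeval_lsub] at h3
      have h4 : mC h * mC z = mC w := by rw [← mC_mul, hhz]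
      change aeval (vc (mC h * mC z)) q1 = 0 at h3
      rw [h4, aeval_mC] at h3
      exact (map_eq_zero_iff _ (algebraMap Qb ℂ).injective).1 h3
    have e2 : aeval (vc w) q2 = 0 := by
      have h3 := hwc q2 hq2
      rw [aeval_mC] at h3
      exact (map_eq_zero_iff _ (algebraMap Qb ℂ).injective).1 h3
    rw [map_add, e1, e2, add_zero]
  · obtain ⟨q1, hq1, q2, hq2, rfl⟩ := Submodule.mem_sup.1 hq
    rw [map_add]
    refine Submodule.add_mem_sup ?_ ?_
    · exact van_stable hC2 hx hq1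
    · rw [halg] at hx
      exact van_stable hC hx hq2
  · exact (le_sup_right : J2 ≤ J1 ⊔ J2) hp

theorem step2 {C : Matrix ι ι ℂ} {h : Matrix ι ι Qb} (hh : vc (mC h * C) ∈ clos (vc C))
    {v : Matrix ι ι ℂ} (hv : vc v ∈ clos (vc C)) : vc (mC h * v) ∈ clos (vc C) := by
  intro p hp
  have h1 : aeval (vc C) (lsub h p) = 0 := by
    rw [aeval_lsub]
    exact hh p hp
  have h2 := hv _ h1
  rw [aeval_lsub] at h2
  exact h2

/-- Right multiplication. -/
theorem mulRight {C : Matrix ι ι ℂ} (hC : IsUnit C) {h : Matrix ι ι ℂ}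
    (hh : ∀ z : Matrix ι ι Qb, vc (mC z) ∈ clos (vc C) → IsUnit (mC z) →
      vc (mC z * h) ∈ clos (vc C)) {z : Matrix ι ι ℂ} (hz : vc z ∈ clos (vc C)) :
    vc (z * h) ∈ clos (vc C) := by
  intro p hp
  let M : Matrix ι ι (MvPolynomial (ι × ι) ℂ) := gm ℂ * h.map MvPolynomial.C
  have hM : ∀ (z : Matrix ι ι ℂ) (n : ι × ι), aeval (vc z) (vc M n) = vc (z * h) n := by
    intro z n
    have hMn : vc M n = ∑ k, (gm ℂ : Matrix ι ι (MvPolynomial (ι × ι) ℂ)) n.1 k *
        (h.map MvPolynomial.C : Matrix ι ι (MvPolynomial (ι × ι) ℂ)) k n.2 := Matrix.mul_apply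
    rw [hMn]
    change _ = (z * h) n.1 n.2
    rw [Matrix.mul_apply, map_sum]
    refine Finset.sum_congr rfl fun k _ => ?_
    rw [map_mul, Matrix.map_apply, algHom_C]
    change aeval (vc z) (X (n.1, k)) * _ = _
    rw [aeval_X]
    rfl
  have hd : aeval (vc C) (gm Qb : Matrix ι ι (MvPolynomial (ι × ι) Qb)).det ≠ 0 := by
    rw [aeval_det]
    exact det_ne hC
  have h1 := null_pts (vc C) _ hd (aeval (vc M) p) ?_ ℂ (fun _ => rfl) hz
  · rw [aeval_subst (B := ℂ) (fun _ => rfl)] at h1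
    simp only [hM] at h1
    exact h1
  · intro y hy hdy
    let Y : Matrix ι ι Qb := Matrix.of fun i j => y (i, j)
    have e1 : (fun n => ((y n : Qb) : ℂ)) = vc (mC Y) := rfl
    have h2 := aeval_subst (B := ℂ) (fun _ => rfl) (vc M) p (fun n => ((y n : Qb) : ℂ))
    rw [e1] at h2 hy hdy ⊢
    simp only [hM] at h2
    rw [aeval_det] at hdy
    have h3 := hh Y hy ((Matrix.isUnit_iff_isUnit_det _).2 (isUnit_iff_ne_zero.2 hdy)) p hp
    rw [← coe_aeval_eq_eval]
    change aeval _ _ = _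
    rw [h2]
    exact h3

/-- Homogenization with a denominator. -/
theorem homog {N N' : Type} (p : MvPolynomial N Qb) (M : N → MvPolynomial N' ℂ)
    (δ : MvPolynomial N' ℂ) : ∃ f : MvPolynomial N' ℂ, ∃ T : ℕ, ∀ z : N' → ℂ, eval z δ ≠ 0 →
      eval z f = (eval z δ) ^ T * aeval (fun n => eval z (M n) * (eval z δ)⁻¹) p := by
  induction p using MvPolynomial.induction_on with
  | C a =>
    refine ⟨C (algebraMap Qb ℂ a), 0, fun z _ => ?_⟩
    rw [eval_C, pow_zero, one_mul, algHom_C]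
  | add p q hp hq =>
    obtain ⟨f1, T1, h1⟩ := hp
    obtain ⟨f2, T2, h2⟩ := hq
    refine ⟨δ ^ T2 * f1 + δ ^ T1 * f2, T1 + T2, fun z hz => ?_⟩
    rw [map_add, map_mul, map_mul, map_pow, map_pow, h1 z hz, h2 z hz, map_add]
    ring
  | mul_X p i hp =>
    obtain ⟨f1, T1, h1⟩ := hp
    refine ⟨f1 * M i, T1 + 1, fun z hz => ?_⟩
    rw [map_mul, h1 z hz, map_mul, aeval_X]
    have e : ∀ A m : ℂ, eval z δ ^ (T1 + 1) * (A * (m * (eval z δ)⁻¹)) =
        eval z δ ^ T1 * A * m * (eval z δ * (eval z δ)⁻¹) := by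
      intro A m
      ring
    rw [e, mul_inv_cancel₀ hz, mul_one]

/-- The closure is a torsor if the logarithmic derivatives are defined over the algebraic
numbers. -/
theorem torsor_of_algSpan {C : Matrix ι ι ℂ} (hC : IsUnit C) (hL : AlgSpan (logSpace C)) :
    IsTorsor C := by
  -- `z` algebraic
  have h3 : ∀ z : Matrix ι ι Qb, IsUnit z → vc (mC z) ∈ clos (vc C) → ∀ w v : Matrix ι ι ℂ,
      vc w ∈ clos (vc C) → vc v ∈ clos (vc C) → vc (w * (mC z)⁻¹ * v) ∈ clos (vc C) := by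
    intro z hz hzc w v hw hv
    rw [Matrix.mul_assoc]
    refine mulRight hC (fun w' hw' hw'u => ?_) hw
    have h4 := step2 (step1 hC hL (mC_unit hw'u) hz hw' hzc) hv
    rw [mC_mul, mC_inv hz, Matrix.mul_assoc] at h4
    exact h4
  intro w z v _ hzu _ hw hz hv p hp
  let G : Matrix ι ι (MvPolynomial (ι × ι) ℂ) := gm ℂ
  let M : Matrix ι ι (MvPolynomial (ι × ι) ℂ) :=
    w.map MvPolynomial.C * G.adjugate * v.map MvPolynomial.C
  obtain ⟨f, T, hf⟩ := homog p (vc M) G.det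
  have hGe : ∀ y : Matrix ι ι ℂ, (eval (vc y)).mapMatrix G = y := by
    intro y
    ext i j
    change eval (vc y) (X (i, j)) = _
    rw [eval_X]
    rfl
  have hGd : ∀ y : Matrix ι ι ℂ, eval (vc y) G.det = y.det := by
    intro y
    rw [RingHom.map_det, hGe]
  have hCm : ∀ (y u : Matrix ι ι ℂ), (eval (vc y)).mapMatrix (u.map MvPolynomial.C) = u := by
    intro y u
    ext i j
    change eval (vc y) (MvPolynomial.C (u i j)) = _
    rw [eval_C]
  have hM : ∀ y : Matrix ι ι ℂ, (eval (vc y)).mapMatrix M = w * y.adjugate * v := by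
    intro y
    change (eval (vc y)).mapMatrix (w.map MvPolynomial.C * G.adjugate * v.map MvPolynomial.C) = _
    rw [map_mul, map_mul, RingHom.map_adjugate, hGe, hCm, hCm]
  have hMv : ∀ y : Matrix ι ι ℂ, IsUnit y → (fun n => eval (vc y) (vc M n) *
      (eval (vc y) G.det)⁻¹) = vc (w * y⁻¹ * v) := by
    intro y _
    have h5 : w * y⁻¹ * v = (y.det)⁻¹ • (w * y.adjugate * v) := by
      rw [Matrix.inv_def, Ring.inverse_eq_inv', Matrix.mul_smul, Matrix.smul_mul]
    rw [h5, ← hM]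
    funext n
    rw [hGd, mul_comm]
    rfl
  have hval : ∀ y : Matrix ι ι ℂ, IsUnit y →
      eval (vc y) f = y.det ^ T * aeval (vc (w * y⁻¹ * v)) p := by
    intro y hy
    have h6 := hf (vc y) (by rw [hGd]; exact det_ne hy)
    rw [hMv y hy, hGd] at h6
    exact h6
  have hd : aeval (vc C) (gm Qb : Matrix ι ι (MvPolynomial (ι × ι) Qb)).det ≠ 0 := by
    rw [aeval_det]
    exact det_ne hC
  have h1 := null_pts (vc C) _ hd f ?_ ℂ (fun _ => rfl) hz
  · have h7 : aeval (vc z) f = eval (vc z) f := by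
      rw [← coe_aeval_eq_eval]
      rfl
    rw [h7, hval z hzu] at h1
    exact (mul_eq_zero.1 h1).resolve_left (pow_ne_zero _ (det_ne hzu))
  · intro y hy hdy
    let Y : Matrix ι ι Qb := Matrix.of fun i j => y (i, j)
    have e1 : (fun n => ((y n : Qb) : ℂ)) = vc (mC Y) := rfl
    rw [e1] at hy hdy ⊢
    rw [aeval_det] at hdy
    have hYu : IsUnit (mC Y) := (Matrix.isUnit_iff_isUnit_det _).2 (isUnit_iff_ne_zero.2 hdy)
    rw [hval _ hYu, h3 Y (mC_unit hYu) hy w v hw hv p hp, mul_zero]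

/-- The closure of an invertible matrix over the algebraic numbers is a torsor if and only if the
space of its logarithmic derivatives is defined over the algebraic numbers. -/
theorem torsor_iff {C : Matrix ι ι ℂ} (hC : IsUnit C) : IsTorsor C ↔ AlgSpan (logSpace C) :=
  ⟨algSpan_of_torsor hC, torsor_of_algSpan hC⟩

end

end Pool.Agent.W537.TT
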