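import Pool.Agent.W537.TT.Semi

/-!
# The transcendence degree of the periods of a motive of K3 type
-/

set_option linter.unusedSectionVars false

namespace Pool.Agent.W537.TT

open Pool.Agent.W537.DB Pool.Agent.W537.KT Matrix

noncomputable section

variable {ι : Type} [Fintype ι] [DecidableEq ι]

/-- The bracket of two algebraic logarithmic derivatives. -/
theorem bracket_alg {C : Matrix ι ι ℂ} (hC : IsUnit C) {x y : Matrix ι ι ℂ} (hx : x ∈ logSpace C)
    (hy : y ∈ logSpace C) (hxa : ∀ i j, x i j ∈ Qb) (hya : ∀ i j, y i j ∈ Qb) :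
    x * y - y * x ∈ logSpace C := by
  obtain ⟨D, hD⟩ := hx
  obtain ⟨E, hE⟩ := hy
  have hD' : C.map D = C * x := by
    rw [hD, ← Matrix.mul_assoc, mul_inv' hC, Matrix.one_mul]
  have hE' : C.map E = C * y := by
    rw [hE, ← Matrix.mul_assoc, mul_inv' hC, Matrix.one_mul]
  have hDy : y.map D = 0 := by
    ext i j
    exact der_Qb D ⟨y i j, hya i j⟩
  have hEx : x.map E = 0 := by
    ext i j
    exact der_Qb E ⟨x i j, hxa i j⟩
  let B : Derivation ℤ ℂ ℂ := ⁅D, E⁆
  refine ⟨B, ?_⟩
  have h1 : C.map B = (C.map E).map D - (C.map D).map E := by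
    ext i j
    rw [Matrix.map_apply]
    exact Derivation.commutator_apply (C i j)
  rw [h1, hE', hD', der_mul', der_mul', hDy, hEx, Matrix.mul_zero, add_zero,
    add_zero, hD', hE', Matrix.mul_sub, ← Matrix.mul_assoc, ← Matrix.mul_assoc,
    ← Matrix.mul_assoc, ← Matrix.mul_assoc, inv_mul' hC, Matrix.one_mul, Matrix.one_mul]

theorem bracket_mem {C : Matrix ι ι ℂ} (hC : IsUnit C) (hL : AlgSpan (logSpace C))
    {x y : Matrix ι ι ℂ} (hx : x ∈ logSpace C) (hy : y ∈ logSpace C) :
    x * y - y * x ∈ logSpace C := by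
  have h1 := hL x hx
  clear hx
  induction h1 using Submodule.span_induction with
  | mem u hu =>
    have h2 := hL y hy
    clear hy
    induction h2 using Submodule.span_induction with
    | mem v hv => exact bracket_alg hC hu.1 hv.1 hu.2 hv.2
    | zero =>
      rw [Matrix.mul_zero, Matrix.zero_mul, sub_zero]
      exact Submodule.zero_mem _
    | add v w _ _ hv hw =>
      have h3 : u * (v + w) - (v + w) * u = (u * v - v * u) + (u * w - w * u) := by
        rw [Matrix.mul_add, Matrix.add_mul]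
        abel
      rw [h3]
      exact Submodule.add_mem _ hv hw
    | smul a v _ hv =>
      rw [Matrix.mul_smul, Matrix.smul_mul, ← smul_sub]
      exact Submodule.smul_mem _ _ hv
  | zero =>
    rw [Matrix.mul_zero, Matrix.zero_mul, sub_zero]
    exact Submodule.zero_mem _
  | add v w _ _ hv hw =>
    have h3 : (v + w) * y - y * (v + w) = (v * y - y * v) + (w * y - y * w) := by
      rw [Matrix.mul_add, Matrix.add_mul]
      abel
    rw [h3]
    exact Submodule.add_mem _ hv hw
  | smul a v _ hv =>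
    rw [Matrix.mul_smul, Matrix.smul_mul, ← smul_sub]
    exact Submodule.smul_mem _ _ hv

variable (T : K3Motive ι)

/-- The complex Lie algebra of the Mumford-Tate group of `T`: the matrices which annihilate all
Hodge classes in the tensor powers of `T`. -/
def mumfordTate : Submodule ℂ (Matrix ι ι ℂ) where
  carrier := {x | ∀ (n : ℕ) (f : Form ι (Fin n)), T.IsHodge f → Annihilates x f}
  zero_mem' := fun _ f _ => ann_zero f
  add_mem' := fun hx hy m f hf => (hx m f hf).add (hy m f hf)
  smul_mem' := fun c _ hx m f hf => (hx m f hf).smul c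

/-- The transcendence degree of the field generated by the periods of `T`. -/
def periodDegree : Cardinal := Algebra.trdeg ℚ (fld (vc T.C))

variable {T} {P : Matrix ι ι ℚ} {m : ℕ}

theorem mt_eq (hZ : T.Zarhin) : mumfordTate T = T.hd := by
  ext x
  constructor
  · exact fun h => mem_hd_of_hodge h
  · exact fun h n f hf => hZ x h.1 h.2 n f hf

theorem Qb_isAlg : ∀ x ∈ Qb, IsAlgebraic ℚ x := fun _ hx => mem_algebraicClosure_iff.1 hx

theorem log_le (hD : T.HodgeDeRham) : logSpace T.C ≤ T.hd := by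
  rintro _ ⟨D, rfl⟩
  exact T.G_le_hd hD (T.X_mem (K := Qb) Qb_isAlg D)

theorem gen_log (hL : AlgSpan (logSpace T.C)) : T.Gen Qb (logSpace T.C) where
  lie := fun _ hx _ hy => bracket_mem T.C_unit hL hx hy
  span := hL
  X_mem := fun D => ⟨D, rfl⟩
  le := by
    rintro _ ⟨D, rfl⟩
    exact T.X_mem (K := Qb) Qb_isAlg D

theorem hd_algSpan (hZ : T.Zarhin) : AlgSpan T.hd := by
  intro x hx
  refine Submodule.span_mono ?_ (hd_span hZ hx)
  rintro _ ⟨R, rfl, hR⟩
  exact ⟨hR, fun i j => by
    rw [mem_algebraicClosure_iff]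
    exact isAlgebraic_algebraMap (R i j)⟩

/-- If every element of `hd` is a logarithmic derivative, then the de Rham-Betti classes are
combinations of Hodge classes. -/
theorem kugaSatake_of (hZ : T.Zarhin) (hall : ∀ x ∈ T.hd, ∃ D, T.X D = x) :
    T.KugaSatake Qb := by
  intro n f _ hf
  refine hodge_of_ann hZ hf.1 fun x hx => ?_
  obtain ⟨D, rfl⟩ := hall x hx
  exact T.X_mem (K := Qb) Qb_isAlg D n f hf

theorem k3_iff (hD : T.HodgeDeRham) (hZ : T.Zarhin)
    (hW : ∀ j, 3 ≤ j → j ≠ 5 → SphereProperty j) (hP : T.RealMultiplication P)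
    (hm : Fintype.card ι = m * (minpoly ℚ P).natDegree) (h5 : m ≠ 5) :
    periodDegree T = (Module.finrank ℂ (mumfordTate T) : Cardinal) ↔
      IsTorsor T.C ∧ T.KugaSatake Qb ∧ T.Semisimple Qb := by
  obtain ⟨d⟩ := Pool.Agent.W249.KT.t_DEC ι T.Q P m T.Q_symm T.Q_det hP.2.2.1 hP.2.2.2 hm
  have h3 : 3 ≤ m := three_le hZ hP d
  unfold periodDegree
  rw [trdeg_log T.C_unit, mt_eq hZ, torsor_iff T.C_unit]
  constructor
  · intro h
    have h1 : Module.finrank ℂ (logSpace T.C) = Module.finrank ℂ T.hd := by exact_mod_cast h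
    have h2 : logSpace T.C = T.hd := Submodule.eq_of_le_of_finrank_eq (log_le hD) h1
    have hall : ∀ x ∈ T.hd, ∃ D, T.X D = x := by
      intro x hx
      rw [← h2] at hx
      obtain ⟨D, hD⟩ := hx
      exact ⟨D, hD.symm⟩
    refine ⟨?_, kugaSatake_of hZ hall, semisimple_of hP d (by omega) hall fun D =>
      log_le hD ⟨D, rfl⟩⟩
    rw [h2]
    exact hd_algSpan hZ
  · rintro ⟨hL, hKS, hSS⟩
    have h1 : T.hd ≤ logSpace T.C :=
      (gen_log hL).hd_le Qb_isAlg hD hKS hSS hZ hP d (by omega) (hW m h3 h5)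
    rw [le_antisymm (log_le hD) h1]

end

end Pool.Agent.W537.TT
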