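import Pool.Agent.W537.DB.Der
import Pool.Agent.H598R2.Deriv

/-!
# The transcendence degree of a finite family of complex numbers and the derivations
-/

set_option linter.unusedSectionVars false

namespace Pool.Agent.W537.TT

open Pool.Agent.W537.DB

noncomputable section

section general

variable {K L : Type} [Field K] [Field L] [Algebra K L]

/-- The field of constants of a derivation. -/
def constants (D : Derivation K L L) : IntermediateField K L where
  carrier := {x | D x = 0}
  mul_mem' := by
    intro a b ha hb
    change D (a * b) = 0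
    rw [Derivation.leibniz, ha, hb, smul_zero, smul_zero, add_zero]
  add_mem' := by
    intro a b ha hb
    change D (a + b) = 0
    rw [map_add, ha, hb, add_zero]
  algebraMap_mem' := fun q => D.map_algebraMap q
  inv_mem' := by
    intro a ha
    change D a⁻¹ = 0
    by_cases h0 : a = 0
    · rw [h0, inv_zero, map_zero]
    have h1 : D (a * a⁻¹) = 0 := by
      rw [mul_inv_cancel₀ h0, Derivation.map_one_eq_zero]
    rw [Derivation.leibniz, ha, smul_zero, add_zero, smul_eq_mul] at h1
    exact (mul_eq_zero.1 h1).resolve_left h0

theorem mem_constants {D : Derivation K L L} {x : L} : x ∈ constants D ↔ D x = 0 := Iff.rfl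

/-- The derivation as a derivation over its field of constants. -/
def derK (D : Derivation K L L) : Derivation (constants D) L L :=
  Derivation.mk'
    { toFun := D
      map_add' := map_add D
      map_smul' := by
        intro a x
        rw [RingHom.id_apply, Algebra.smul_def, Algebra.smul_def]
        change D ((a : L) * x) = (a : L) * D x
        rw [Derivation.leibniz, mem_constants.1 a.2, smul_zero, add_zero, smul_eq_mul] }
    (fun a b => D.leibniz a b)

/-- A derivation kills the elements which are algebraic over its field of constants. -/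
theorem der_alg_constants [CharZero L] (D : Derivation K L L) {x : L}
    (hx : IsAlgebraic (constants D) x) : D x = 0 := by
  have hint : IsIntegral (constants D) x := hx.isIntegral
  have h1 : derK D (Polynomial.aeval x (minpoly (constants D) x)) = 0 := by
    rw [minpoly.aeval, map_zero]
  rw [Derivation.map_aeval] at h1
  have : CharZero (constants D) := by
    refine ⟨fun a b hab => ?_⟩
    have h3 := congrArg (algebraMap (constants D) L) hab
    rw [map_natCast, map_natCast] at h3
    exact_mod_cast h3
  have h2 : Polynomial.aeval x (Polynomial.derivative (minpoly (constants D) x)) ≠ 0 :=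
    (minpoly.irreducible hint).separable.aeval_derivative_ne_zero (minpoly.aeval _ x)
  rw [smul_eq_mul] at h1
  exact (mul_eq_zero.1 h1).resolve_left h2

/-- A derivation which kills a set `S` kills the elements which are algebraic over `S`. -/
theorem der_alg_adjoin [CharZero L] (D : Derivation K L L) {S : Set L} (hS : ∀ s ∈ S, D s = 0)
    {x : L} (hx : IsAlgebraic (IntermediateField.adjoin K S) x) : D x = 0 := by
  apply der_alg_constants D
  have h1 : IntermediateField.adjoin K S ≤ constants D := by
    rw [IntermediateField.adjoin_le_iff]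
    exact fun s hs => hS s hs
  obtain ⟨p, hp0, hp⟩ := hx
  refine ⟨p.map (IntermediateField.inclusion h1).toRingHom, ?_, ?_⟩
  · rw [Ne, Polynomial.map_eq_zero]
    exact hp0
  · rw [Polynomial.aeval_def, Polynomial.eval₂_map]
    exact hp

variable {N : Type} [Fintype N] [DecidableEq N]

theorem exists_basis (c : N → L) : ∃ (t : Type) (_ : Fintype t) (f : t → N),
    AlgebraicIndependent K (c ∘ f) ∧
    (∀ n, IsAlgebraic (IntermediateField.adjoin K (Set.range (c ∘ f))) (c n)) ∧
    Algebra.trdeg K (IntermediateField.adjoin K (Set.range c)) = (Fintype.card t : Cardinal) := by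
  classical
  set F : IntermediateField K L := IntermediateField.adjoin K (Set.range c) with hF
  let c' : N → F := fun n => ⟨c n, IntermediateField.subset_adjoin _ _ ⟨n, rfl⟩⟩
  have hmap : Algebra.adjoin K (Set.range c) =
      (Algebra.adjoin K (Set.range c')).map F.val := by
    rw [AlgHom.map_adjoin, ← Set.range_comp]
    rfl
  have halg : Algebra.IsAlgebraic (Algebra.adjoin K (Set.range c')) F := by
    refine ⟨fun x => ?_⟩
    have h1 : (x : L) ∈ IntermediateField.adjoin K (Set.range c) := x.2
    rw [IntermediateField.mem_adjoin_iff_div] at h1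
    obtain ⟨r, hr, s, hs, hx⟩ := h1
    have key : ∀ r ∈ Algebra.adjoin K (Set.range c), ∃ r' : Algebra.adjoin K (Set.range c'),
        (((r' : F)) : L) = r := by
      intro r hr
      rw [hmap] at hr
      obtain ⟨y, hy, rfl⟩ := hr
      exact ⟨⟨y, hy⟩, rfl⟩
    obtain ⟨r', hr'⟩ := key r hr
    obtain ⟨s', hs'⟩ := key s hs
    have h3 : x = algebraMap _ F r' * (algebraMap _ F s')⁻¹ := by
      apply Subtype.ext
      change (x : L) = ((r' : F) : L) * (((s' : F) : L))⁻¹
      rw [hr', hs', hx, div_eq_mul_inv]
    rw [h3]
    exact (isAlgebraic_algebraMap _).mul (isAlgebraic_algebraMap _).inv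
  obtain ⟨t, hts, ht⟩ := exists_isTranscendenceBasis_subset (R := K) (Set.range c')
  have htfin : t.Finite := (Set.finite_range c').subset hts
  have : Fintype t := htfin.fintype
  choose f hf using fun x : t => hts x.2
  have hvf : ∀ x : t, ((x : F) : L) = c (f x) := fun x => by
    rw [← hf x]
  have hcf : c ∘ f = F.val ∘ ((↑) : t → F) := by
    funext x
    exact (hvf x).symm
  have hmap2 : (Algebra.adjoin K (Set.range ((↑) : t → F))).map F.val =
      Algebra.adjoin K (Set.range (c ∘ f)) := by
    rw [AlgHom.map_adjoin, ← Set.range_comp, hcf]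
  have h0 := ht.cardinalMk_eq_trdeg
  refine ⟨t, this, f, ?_, ?_, ?_⟩
  · rw [hcf]
    exact ht.1.map' (f := F.val) F.val.injective
  · intro n
    have h2 : Algebra.IsAlgebraic (Algebra.adjoin K (Set.range ((↑) : t → F))) F :=
      ht.isAlgebraic
    obtain ⟨p, hp0, hp⟩ := h2.isAlgebraic (c' n)
    have hle : ∀ a : Algebra.adjoin K (Set.range ((↑) : t → F)),
        ((a : F) : L) ∈ IntermediateField.adjoin K (Set.range (c ∘ f)) := by
      intro a
      have h4 : ((a : F) : L) ∈
          (Algebra.adjoin K (Set.range ((↑) : t → F))).map F.val := ⟨a, a.2, rfl⟩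
      rw [hmap2] at h4
      exact IntermediateField.algebra_adjoin_le_adjoin _ _ h4
    let ψ : Algebra.adjoin K (Set.range ((↑) : t → F)) →+*
        IntermediateField.adjoin K (Set.range (c ∘ f)) :=
      { toFun := fun a => ⟨((a : F) : L), hle a⟩
        map_one' := rfl
        map_mul' := fun _ _ => rfl
        map_zero' := rfl
        map_add' := fun _ _ => rfl }
    have hψ : Function.Injective ψ := by
      intro a b hab
      apply Subtype.ext
      apply Subtype.ext
      have h5 : ((ψ a : IntermediateField.adjoin K (Set.range (c ∘ f))) : L) = ψ b := by rw [hab]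
      exact h5
    refine ⟨p.map ψ, ?_, ?_⟩
    · rw [Ne, Polynomial.map_eq_zero_iff hψ]
      exact hp0
    · rw [Polynomial.aeval_def, Polynomial.eval₂_map]
      have h5 := congrArg (algebraMap F L) hp
      rw [map_zero, Polynomial.aeval_def, Polynomial.hom_eval₂] at h5
      exact h5
  · rw [← h0, Cardinal.mk_fintype]

end general

variable {N : Type} [Fintype N] [DecidableEq N]

/-- The values of the derivations of the complex numbers on a family of complex numbers. -/
def derSpace (c : N → ℂ) : Submodule ℂ (N → ℂ) where
  carrier := {w | ∃ D : Derivation ℤ ℂ ℂ, ∀ n, D (c n) = w n}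
  zero_mem' := ⟨0, fun _ => rfl⟩
  add_mem' := by
    rintro v w ⟨D, hD⟩ ⟨E, hE⟩
    exact ⟨D + E, fun n => by rw [Derivation.add_apply, hD, hE, Pi.add_apply]⟩
  smul_mem' := by
    rintro a w ⟨D, hD⟩
    exact ⟨a • D, fun n => by rw [Derivation.smul_apply, hD, Pi.smul_apply]⟩

/-- A derivation of the complex numbers which kills the image of `K` is linear over `K`. -/
theorem exists_derK {K : Type} [Field K] [Algebra K ℂ] (D : Derivation ℤ ℂ ℂ)
    (hK : ∀ a : K, D (algebraMap K ℂ a) = 0) : ∃ E : Derivation K ℂ ℂ, ∀ x, E x = D x :=
  ⟨Derivation.mk'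
    { toFun := D
      map_add' := map_add D
      map_smul' := by
        intro a x
        rw [RingHom.id_apply, Algebra.smul_def, Algebra.smul_def]
        rw [Derivation.leibniz, hK, smul_zero, add_zero, smul_eq_mul] }
    (fun a b => D.leibniz a b), fun _ => rfl⟩

/-- The transcendence degree over a field of algebraic numbers. -/
theorem trdegK (K : Type) [Field K] [CharZero K] [Algebra K ℂ]
    (hK : ∀ (D : Derivation ℤ ℂ ℂ) (a : K), D (algebraMap K ℂ a) = 0) (c : N → ℂ) :
    Algebra.trdeg K (IntermediateField.adjoin K (Set.range c)) =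
      (Module.finrank ℂ (derSpace c) : Cardinal) := by
  classical
  obtain ⟨t, _, f, hv, halg, hcard⟩ := exists_basis (K := K) c
  have hinj : Function.Injective (c ∘ f) := hv.injective
  obtain ⟨u, hu, hub⟩ := exists_isTranscendenceBasis_superset (R := K) (s := Set.range (c ∘ f))
    hv.to_subtype_range
  have hdual : ∀ x : t, ∃ D : Derivation ℤ ℂ ℂ, ∀ y : t, D (c (f y)) = if y = x then 1 else 0 := by
    intro x
    obtain ⟨D, hD⟩ := Pool.Agent.H598R2.exists_derivation hub (⟨c (f x), hu ⟨x, rfl⟩⟩ : u)
    refine ⟨D.restrictScalars ℤ, fun y => ?_⟩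
    have h1 := hD ⟨c (f y), hu ⟨y, rfl⟩⟩
    change D (c (f y)) = _ at h1
    change D (c (f y)) = _
    rw [h1]
    by_cases hyx : y = x
    · subst hyx
      rw [if_pos rfl, if_pos rfl]
    · rw [if_neg hyx, if_neg]
      intro h2
      have h3 : c (f y) = c (f x) := by simpa using h2
      exact hyx (hinj h3)
  choose E hE using hdual
  -- the restriction to the transcendence basis
  let φ : derSpace c →ₗ[ℂ] (t → ℂ) :=
    { toFun := fun w x => (w : N → ℂ) (f x)
      map_add' := fun _ _ => rfl
      map_smul' := fun _ _ => rfl }
  have hφ : Function.Bijective φ := by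
    constructor
    · rw [← LinearMap.ker_eq_bot, LinearMap.ker_eq_bot']
      rintro ⟨w, D, hD⟩ h0
      have h1 : ∀ x : t, D (c (f x)) = 0 := by
        intro x
        rw [hD]
        exact congrFun h0 x
      apply Subtype.ext
      funext n
      change w n = 0
      rw [← hD n]
      obtain ⟨E, hE⟩ := exists_derK (K := K) D (hK D)
      rw [← hE]
      exact der_alg_adjoin E (S := Set.range (c ∘ f))
        (by rintro _ ⟨x, rfl⟩; rw [hE]; exact h1 x) (halg n)
    · intro a
      have hsum : ∀ s : Finset t, ∃ D : Derivation ℤ ℂ ℂ, ∀ z, D z = ∑ x ∈ s, a x * E x z := by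
        intro s
        induction s using Finset.induction_on with
        | empty => exact ⟨0, fun z => by simp⟩
        | insert i s hi ih =>
          obtain ⟨D, hD⟩ := ih
          exact ⟨a i • E i + D, fun z => by
            rw [Finset.sum_insert hi, Derivation.add_apply, Derivation.smul_apply, hD, smul_eq_mul]⟩
      obtain ⟨D, hD⟩ := hsum Finset.univ
      refine ⟨⟨fun n => D (c n), D, fun n => rfl⟩, ?_⟩
      funext y
      change D (c (f y)) = a y
      rw [hD]
      simp only [hE, mul_ite, mul_one, mul_zero, Finset.sum_ite_eq, Finset.mem_univ, if_true]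
  let e : derSpace c ≃ₗ[ℂ] (t → ℂ) := LinearEquiv.ofBijective φ hφ
  rw [e.finrank_eq, Module.finrank_fintype_fun_eq_card, ← hcard]

/-- The field generated by the family. -/
def fld (c : N → ℂ) : IntermediateField ℚ ℂ := IntermediateField.adjoin ℚ (Set.range c)

theorem trdeg_eq (c : N → ℂ) :
    Algebra.trdeg ℚ (fld c) = (Module.finrank ℂ (derSpace c) : Cardinal) := by
  rw [← trdegK ℚ (fun D a => der_rat D a) c]
  have hi : (DivisionRing.toRatAlgebra : Algebra ℚ (fld c)) = (fld c).algebra' :=
    Subsingleton.elim _ _
  unfold fld at hi ⊢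
  rw [hi]

end

end Pool.Agent.W537.TT
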