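import Pool.Agent.W537.TT.K3
import Pool.Agent.W537.KT.Twist

/-!
# The transcendence degree of the periods of a K3 surface, with the Tate twists
-/

set_option linter.unusedSectionVars false

namespace Pool.Agent.W537.TT

open Pool.Agent.W537.DB Pool.Agent.W537.KT Matrix

noncomputable section

variable {ι : Type} [Fintype ι] [DecidableEq ι] {κ : Type} [Fintype κ] [DecidableEq κ]

/-- The skew matrices of size at least three are sums of brackets of skew matrices. -/
theorem so_perfect {m : ℕ} (hm : 2 < m) (V : Submodule ℂ (Matrix (Fin m) (Fin m) ℂ))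
    (hV : ∀ z w : Matrix (Fin m) (Fin m) ℂ, z.transpose = -z → w.transpose = -w →
      z * w - w * z ∈ V) {z : Matrix (Fin m) (Fin m) ℂ} (hz : z.transpose = -z) : z ∈ V := by
  let E : Fin m → Fin m → Matrix (Fin m) (Fin m) ℂ := fun i j =>
    Matrix.single i j 1 - Matrix.single j i 1
  have hE : ∀ i j, (E i j).transpose = -E i j := by
    intro i j
    simp only [E, Matrix.transpose_sub, Matrix.transpose_single, neg_sub]
  have hEV : ∀ i j, E i j ∈ V := by
    intro i j
    by_cases hij : i = j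
    · subst hij
      have h1 : E i i = 0 := sub_self _
      rw [h1]
      exact V.zero_mem
    · obtain ⟨l, hli, hlj⟩ : ∃ l, l ≠ i ∧ l ≠ j := by
        by_contra h
        push Not at h
        have h1 : (Finset.univ : Finset (Fin m)) ⊆ {i, j} := by
          intro l _
          by_cases hl : l = i
          · simp [hl]
          · simp [h l hl]
        have h2 := Finset.card_le_card h1
        rw [Finset.card_univ, Fintype.card_fin] at h2
        have h3 := Finset.card_le_two (a := i) (b := j)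
        omega
      have h1 := hV (E i l) (E l j) (hE i l) (hE l j)
      have h2 : E i l * E l j - E l j * E i l = E i j := by
        simp only [E, Matrix.mul_sub, Matrix.sub_mul]
        rw [Matrix.single_mul_single_same, Matrix.single_mul_single_of_ne _ _ _ _ hlj,
          Matrix.single_mul_single_of_ne _ _ _ _ hij, Matrix.single_mul_single_of_ne _ _ _ _ hli.symm,
          Matrix.single_mul_single_of_ne _ _ _ _ (Ne.symm hij),
          Matrix.single_mul_single_of_ne _ _ _ _ hli,
          Matrix.single_mul_single_of_ne _ _ _ _ (Ne.symm hlj), Matrix.single_mul_single_same]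
        simp
      rwa [h2] at h1
  have h1 : z = ∑ i, ∑ j, (z i j / 2) • E i j := by
    ext r s
    have h2 : ∀ i j, ((z i j / 2) • E i j) r s =
        (if i = r then (if j = s then z i j / 2 else 0) else 0) -
        (if j = r then (if i = s then z i j / 2 else 0) else 0) := by
      intro i j
      rw [Matrix.smul_apply, smul_eq_mul]
      change z i j / 2 * ((Matrix.single i j (1 : ℂ) - Matrix.single j i 1 :
        Matrix (Fin m) (Fin m) ℂ) r s) = _
      rw [Matrix.sub_apply, Matrix.single_apply, Matrix.single_apply, mul_sub]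
      congr 1
      · by_cases h1 : i = r <;> by_cases h2 : j = s <;> simp [h1, h2]
      · by_cases h1 : j = r <;> by_cases h2 : i = s <;> simp [h1, h2]
    simp only [Matrix.sum_apply, h2, Finset.sum_sub_distrib]
    have h3 : ∀ i j, z j i = -z i j := fun i j => congrFun (congrFun hz i) j
    have e1 : ∑ i, ∑ j, (if i = r then (if j = s then z i j / 2 else 0) else 0) = z r s / 2 := by
      rw [Finset.sum_eq_single r]
      · rw [Finset.sum_eq_single s]
        · simp
        · intro j _ hj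
          simp [hj]
        · simp
      · intro i _ hi
        simp [hi]
      · simp
    have e2 : ∑ i, ∑ j, (if j = r then (if i = s then z i j / 2 else 0) else 0) = z s r / 2 := by
      rw [Finset.sum_eq_single s]
      · rw [Finset.sum_eq_single r]
        · simp
        · intro j _ hj
          simp [hj]
        · simp
      · intro i _ hi
        simp [hi]
      · simp
    rw [e1, e2, h3 r s]
    ring
  rw [h1]
  exact V.sum_mem fun i _ => V.sum_mem fun j _ => V.smul_mem _ (hEV i j)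

variable {T : K3Motive ι} {P : Matrix ι ι ℚ} {m : ℕ}

/-- The Lie algebra of the Hodge group is perfect. -/
theorem hd_perfect (hP : T.RealMultiplication P) (d : Dec T.QC (toC P) m) (hm : 2 < m)
    (V : Submodule ℂ (Matrix ι ι ℂ)) (hV : ∀ x ∈ T.hd, ∀ y ∈ T.hd, x * y - y * x ∈ V)
    {x : Matrix ι ι ℂ} (hx : x ∈ T.hd) : x ∈ V := by
  rw [d.eq_sum hP.toC (hd_comm hP hx)]
  refine V.sum_mem fun s _ => ?_
  let L : Matrix (Fin m) (Fin m) ℂ →ₗ[ℂ] Matrix ι ι ℂ :=
    { toFun := fun z => d.phi s z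
      map_add' := fun z w => d.phi_add s z w
      map_smul' := fun c z => d.phi_smul s c z }
  refine so_perfect hm (V.comap L) (fun z w hz hw => ?_) (d.comp_skew T.QC_T hx.1 s)
  rw [Submodule.mem_comap]
  change d.phi s (z * w - w * z) ∈ V
  rw [d.phi_sub, ← d.phi_mul, ← d.phi_mul]
  exact hV _ (T.phi_mem hP d s hz) _ (T.phi_mem hP d s hw)

theorem hd_trace {x : Matrix ι ι ℂ} (hx : x ∈ T.hd) : x.trace = 0 := by
  have h1 : x.transpose = -(T.QC * x * T.QI) := by
    have h2 := congrArg (fun M => M * T.QI) hx.1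
    change x.transpose * T.QC * T.QI = -(T.QC * x) * T.QI at h2
    rwa [Matrix.mul_assoc, T.mul_QI, Matrix.mul_one, Matrix.neg_mul] at h2
  have h2 : x.trace = -x.trace := by
    conv_lhs => rw [← Matrix.trace_transpose, h1, Matrix.trace_neg, Matrix.mul_assoc,
      Matrix.trace_mul_comm, Matrix.mul_assoc, T.QI_mul, Matrix.mul_one]
  exact self_eq_neg.1 h2

/-! ### The period matrix with Tate twists -/

/-- The period matrix of the sum of `T(-a)` and of the Tate motives `1(-e j)`, where `τ = 2 π i`. -/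
def twisted (T : K3Motive ι) (a : ℤ) (e : κ → ℤ) : Matrix (ι ⊕ κ) (ι ⊕ κ) ℂ :=
  Matrix.fromBlocks (((2 * Real.pi * Complex.I : ℂ) ^ a) • T.C) 0 0
    (Matrix.diagonal fun j => (2 * Real.pi * Complex.I : ℂ) ^ e j)

/-- The elements of the Lie algebra. -/
def tw (κ : Type) [Fintype κ] [DecidableEq κ] (a : ℤ) (e : κ → ℤ) :
    (Matrix ι ι ℂ × ℂ) →ₗ[ℂ] Matrix (ι ⊕ κ) (ι ⊕ κ) ℂ where
  toFun p := Matrix.fromBlocks (p.1 + ((a : ℂ) * p.2) • (1 : Matrix ι ι ℂ)) 0 0
    (Matrix.diagonal fun j => (e j : ℂ) * p.2)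
  map_add' p q := by
    ext i j
    rcases i with i | i <;> rcases j with j | j
    · simp [Matrix.fromBlocks]
      ring
    · simp [Matrix.fromBlocks]
    · simp [Matrix.fromBlocks]
    · simp only [Matrix.fromBlocks, Matrix.add_apply, Matrix.of_apply, Sum.elim_inr,
        Matrix.diagonal_apply]
      split_ifs
      · simp
        ring
      · simp
  map_smul' c p := by
    ext i j
    rcases i with i | i <;> rcases j with j | j
    · simp [Matrix.fromBlocks]
      ring
    · simp [Matrix.fromBlocks]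
    · simp [Matrix.fromBlocks]
    · simp only [Matrix.fromBlocks, Matrix.smul_apply, Matrix.of_apply, Sum.elim_inr,
        Matrix.diagonal_apply]
      split_ifs
      · simp
        ring
      · simp

theorem der_zpow (D : Derivation ℤ ℂ ℂ) {x : ℂ} (hx : x ≠ 0) (n : ℤ) :
    D (x ^ n) = n * x ^ n * (D x / x) := by
  have hnat : ∀ n : ℕ, D (x ^ n) = n * x ^ n * (D x / x) := by
    intro n
    rw [Derivation.leibniz_pow]
    rcases n with _ | n
    · simp
    · simp only [Nat.add_sub_cancel, smul_eq_mul, nsmul_eq_mul]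
      rw [pow_succ]
      field_simp
  obtain ⟨n, rfl | rfl⟩ := n.eq_nat_or_neg
  · rw [zpow_natCast, hnat]
    simp
  · rw [_root_.zpow_neg, zpow_natCast]
    have h1 : D (x ^ n * (x ^ n)⁻¹) = 0 := by
      rw [mul_inv_cancel₀ (pow_ne_zero _ hx), Derivation.map_one_eq_zero]
    rw [Derivation.leibniz, hnat] at h1
    simp only [smul_eq_mul] at h1
    have h2 : x ^ n ≠ 0 := pow_ne_zero _ hx
    have h3 : x ^ n * D (x ^ n)⁻¹ = -((x ^ n)⁻¹ * (n * x ^ n * (D x / x))) :=
      eq_neg_of_add_eq_zero_left h1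
    have h4 : D (x ^ n)⁻¹ = (x ^ n)⁻¹ * (x ^ n * D (x ^ n)⁻¹) := by
      rw [← mul_assoc, inv_mul_cancel₀ h2, one_mul]
    rw [h4, h3]
    push_cast
    generalize x ^ n = y at h2
    generalize D x / x = c
    field_simp

theorem tw_apply (a : ℤ) (e : κ → ℤ) (x : Matrix ι ι ℂ) (u : ℂ) :
    tw κ a e (x, u) = Matrix.fromBlocks (x + ((a : ℂ) * u) • (1 : Matrix ι ι ℂ)) 0 0
      (Matrix.diagonal fun j => (e j : ℂ) * u) := rfl

theorem twisted_unit (T : K3Motive ι) (a : ℤ) (e : κ → ℤ) : IsUnit (twisted T a e) := by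
  rw [Matrix.isUnit_iff_isUnit_det, isUnit_iff_ne_zero]
  unfold twisted
  rw [Matrix.det_fromBlocks_zero₂₁, Matrix.det_smul, Matrix.det_diagonal]
  refine mul_ne_zero (mul_ne_zero (pow_ne_zero _ (zpow_ne_zero _ two_pi_I_ne)) (det_ne T.C_unit))
    (Finset.prod_ne_zero_iff.2 fun j _ => zpow_ne_zero _ two_pi_I_ne)

/-- The derivative of the period matrix. -/
theorem twisted_der (T : K3Motive ι) (a : ℤ) (e : κ → ℤ) (D : Derivation ℤ ℂ ℂ) :
    (twisted T a e).map D = twisted T a e * tw κ a e (T.X D, lam D) := by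
  rw [tw_apply]
  unfold twisted
  rw [Matrix.fromBlocks_multiply]
  simp only [Matrix.mul_zero, Matrix.zero_mul, add_zero, zero_add]
  rw [Matrix.diagonal_mul_diagonal, Matrix.smul_mul, Matrix.mul_add, ← T.der_C, Matrix.mul_smul,
    Matrix.mul_one]
  ext i j
  rcases i with i | i <;> rcases j with j | j
  · rw [Matrix.map_apply]
    simp only [Matrix.fromBlocks, Matrix.of_apply, Sum.elim_inl, Matrix.smul_apply, Matrix.add_apply,
      Matrix.map_apply, smul_eq_mul]
    rw [Derivation.leibniz, der_zpow D two_pi_I_ne]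
    simp only [smul_eq_mul]
    unfold lam
    ring
  · simp [Matrix.fromBlocks]
  · simp [Matrix.fromBlocks]
  · rw [Matrix.map_apply]
    simp only [Matrix.fromBlocks, Matrix.of_apply, Sum.elim_inr, Matrix.diagonal_apply]
    split_ifs with h
    · rw [der_zpow D two_pi_I_ne]
      unfold lam
      ring
    · exact map_zero D

theorem mem_log_twisted (T : K3Motive ι) (a : ℤ) (e : κ → ℤ) (y : Matrix (ι ⊕ κ) (ι ⊕ κ) ℂ) :
    y ∈ logSpace (twisted T a e) ↔ ∃ D, y = tw κ a e (T.X D, lam D) := by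
  have hu := twisted_unit T a e
  constructor
  · rintro ⟨D, rfl⟩
    refine ⟨D, ?_⟩
    rw [twisted_der, ← Matrix.mul_assoc, inv_mul' hu, Matrix.one_mul]
  · rintro ⟨D, rfl⟩
    refine ⟨D, ?_⟩
    rw [twisted_der, ← Matrix.mul_assoc, inv_mul' hu, Matrix.one_mul]

/-- The projection to the first component. -/
def prj : Matrix (ι ⊕ κ) (ι ⊕ κ) ℂ →ₗ[ℂ] Matrix ι ι ℂ where
  toFun y := y.toBlocks₁₁ - (y.toBlocks₁₁.trace / (Fintype.card ι : ℂ)) • (1 : Matrix ι ι ℂ)
  map_add' y z := by
    ext i j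
    simp [Matrix.toBlocks₁₁, Matrix.trace, Finset.sum_add_distrib]
    ring
  map_smul' c y := by
    ext i j
    simp [Matrix.toBlocks₁₁, Matrix.trace, ← Finset.mul_sum]
    ring

theorem prj_tw (hι : (Fintype.card ι : ℂ) ≠ 0) (a : ℤ) (e : κ → ℤ) {x : Matrix ι ι ℂ}
    (hx : x.trace = 0) (u : ℂ) : prj (tw κ a e (x, u)) = x := by
  rw [tw_apply]
  change (x + ((a : ℂ) * u) • (1 : Matrix ι ι ℂ)) -
    ((x + ((a : ℂ) * u) • (1 : Matrix ι ι ℂ)).trace / (Fintype.card ι : ℂ)) •
      (1 : Matrix ι ι ℂ) = x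
  rw [Matrix.trace_add, Matrix.trace_smul, Matrix.trace_one, hx, zero_add, smul_eq_mul,
    mul_div_cancel_right₀ _ hι, add_sub_cancel_right]

theorem tw_inj (hι : (Fintype.card ι : ℂ) ≠ 0) (a : ℤ) (e : κ → ℤ) (hae : a ≠ 0 ∨ ∃ j, e j ≠ 0)
    {x x' : Matrix ι ι ℂ} (hx : x.trace = 0) (hx' : x'.trace = 0) {u u' : ℂ}
    (h : tw κ a e (x, u) = tw κ a e (x', u')) : x = x' ∧ u = u' := by
  have h1 : x = x' := by
    rw [← prj_tw hι a e hx u, ← prj_tw hι a e hx' u', h]
  refine ⟨h1, ?_⟩
  subst h1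
  rw [tw_apply, tw_apply] at h
  rcases hae with ha | ⟨j, hj⟩
  · have h2 := (Matrix.fromBlocks_inj.1 h).1
    rw [add_right_inj] at h2
    have h3 := congrArg Matrix.trace h2
    rw [Matrix.trace_smul, Matrix.trace_smul, Matrix.trace_one, smul_eq_mul, smul_eq_mul] at h3
    have h4 := mul_right_cancel₀ hι h3
    exact mul_left_cancel₀ (Int.cast_ne_zero.2 ha) h4
  · have h2 := (Matrix.fromBlocks_inj.1 h).2.2.2
    have h3 := congrFun (congrFun h2 j) j
    rw [Matrix.diagonal_apply_eq, Matrix.diagonal_apply_eq] at h3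
    exact mul_left_cancel₀ (Int.cast_ne_zero.2 hj) h3

theorem tw_bracket (a : ℤ) (e : κ → ℤ) (x x' : Matrix ι ι ℂ) (u u' : ℂ) :
    tw κ a e (x, u) * tw κ a e (x', u') - tw κ a e (x', u') * tw κ a e (x, u) =
      tw κ a e (x * x' - x' * x, 0) := by
  rw [tw_apply, tw_apply, tw_apply, Matrix.fromBlocks_multiply, Matrix.fromBlocks_multiply]
  simp only [Matrix.mul_zero, Matrix.zero_mul, add_zero, zero_add, Matrix.diagonal_mul_diagonal,
    mul_zero, zero_smul]
  ext i j
  rcases i with i | i <;> rcases j with j | j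
  · simp only [Matrix.sub_apply, Matrix.fromBlocks_apply₁₁]
    rw [← Matrix.sub_apply, ← Matrix.sub_apply]
    have h1 : ∀ α β : ℂ, (x + α • (1 : Matrix ι ι ℂ)) * (x' + β • (1 : Matrix ι ι ℂ)) -
        (x' + β • (1 : Matrix ι ι ℂ)) * (x + α • (1 : Matrix ι ι ℂ)) = x * x' - x' * x := by
      intro α β
      simp only [Matrix.add_mul, Matrix.mul_add, Matrix.smul_mul, Matrix.mul_smul, Matrix.one_mul,
        Matrix.mul_one, smul_add, smul_smul]
      rw [mul_comm β α]
      abel
    rw [h1]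
  · simp
  · simp
  · simp only [Matrix.sub_apply, Matrix.fromBlocks_apply₂₂, Matrix.diagonal_apply]
    split_ifs
    · ring
    · simp

/-- The space of the pairs of the logarithmic derivatives of `C` and `2 π i`. -/
theorem card_ne (T : K3Motive ι) : (Fintype.card ι : ℂ) ≠ 0 := by
  rw [Nat.cast_ne_zero]
  intro h
  have h1 := T.N_rank
  have h2 := Matrix.rank_le_card_width T.N
  omega

theorem tate_iff (hD : T.HodgeDeRham) (hZ : T.Zarhin)
    (hW : ∀ j, 3 ≤ j → j ≠ 5 → SphereProperty j) (hP : T.RealMultiplication P)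
    (hm : Fintype.card ι = m * (minpoly ℚ P).natDegree) (h5 : m ≠ 5)
    (a : ℤ) (e : κ → ℤ) (hae : a ≠ 0 ∨ ∃ j, e j ≠ 0) :
    Algebra.trdeg ℚ (fld (vc (twisted T a e))) =
        ((Module.finrank ℂ (mumfordTate T) + 1 : ℕ) : Cardinal) ↔
      IsTorsor (twisted T a e) ∧ T.KugaSatake Qb ∧ T.Semisimple Qb := by
  obtain ⟨d⟩ := Pool.Agent.W249.KT.t_DEC ι T.Q P m T.Q_symm T.Q_det hP.2.2.1 hP.2.2.2 hm
  have h3 : 3 ≤ m := three_le hZ hP d
  have hι := card_ne T
  have hXd : ∀ D, T.X D ∈ T.hd := fun D => log_le hD ⟨D, rfl⟩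
  have hu := twisted_unit T a e
  rw [trdeg_log hu, mt_eq hZ, torsor_iff hu]
  -- the full Lie algebra
  let full : Submodule ℂ (Matrix ι ι ℂ × ℂ) := T.hd.prod ⊤
  let φ : full →ₗ[ℂ] Matrix (ι ⊕ κ) (ι ⊕ κ) ℂ := (tw κ a e).comp full.subtype
  have hφ : Function.Injective φ := by
    rintro ⟨⟨x, u⟩, hx⟩ ⟨⟨x', u'⟩, hx'⟩ h
    have h1 := tw_inj hι a e hae (hd_trace hx.1) (hd_trace hx'.1) h
    apply Subtype.ext
    exact Prod.ext h1.1 h1.2
  have hfin : Module.finrank ℂ (LinearMap.range φ) = Module.finrank ℂ T.hd + 1 := by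
    rw [LinearMap.finrank_range_of_inj hφ]
    have e1 : full ≃ₗ[ℂ] T.hd × ℂ :=
      { toFun := fun p => (⟨p.1.1, p.2.1⟩, p.1.2)
        invFun := fun q => ⟨(q.1.1, q.2), q.1.2, trivial⟩
        left_inv := fun _ => rfl
        right_inv := fun _ => rfl
        map_add' := fun _ _ => rfl
        map_smul' := fun _ _ => rfl }
    rw [e1.finrank_eq, Module.finrank_prod, Module.finrank_self]
  have hle : logSpace (twisted T a e) ≤ LinearMap.range φ := by
    intro y hy
    obtain ⟨D, rfl⟩ := (mem_log_twisted T a e y).1 hy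
    exact ⟨⟨(T.X D, lam D), hXd D, trivial⟩, rfl⟩
  constructor
  · intro h
    have h1 : Module.finrank ℂ (logSpace (twisted T a e)) =
        Module.finrank ℂ (LinearMap.range φ) := by
      rw [hfin]
      exact_mod_cast h
    have h2 := Submodule.eq_of_le_of_finrank_eq hle h1
    have hall : ∀ x ∈ T.hd, ∃ D, T.X D = x := by
      intro x hx
      have h4 : tw κ a e (x, 0) ∈ logSpace (twisted T a e) := by
        rw [h2]
        exact ⟨⟨(x, 0), hx, trivial⟩, rfl⟩
      obtain ⟨D, hD⟩ := (mem_log_twisted T a e _).1 h4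
      exact ⟨D, (tw_inj hι a e hae (hd_trace hx) (hd_trace (hXd D)) hD).1.symm⟩
    refine ⟨?_, kugaSatake_of hZ hall, semisimple_of hP d (by omega) hall hXd⟩
    rw [h2]
    rintro _ ⟨⟨⟨x, u⟩, hx⟩, rfl⟩
    -- decompose
    have hxs := hd_algSpan hZ x hx.1
    have h5 : ∀ x, x ∈ Submodule.span ℂ {y | y ∈ T.hd ∧ ∀ i j, y i j ∈ Qb} →
        tw κ a e (x, 0) ∈ Submodule.span ℂ {y | y ∈ LinearMap.range φ ∧ ∀ i j, y i j ∈ Qb} := by
      intro x hx
      induction hx using Submodule.span_induction with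
      | mem y hy =>
        refine Submodule.subset_span ⟨⟨⟨(y, 0), hy.1, trivial⟩, rfl⟩, fun i j => ?_⟩
        rw [tw_apply]
        rcases i with i | i <;> rcases j with j | j
        · simpa using hy.2 i j
        · simp
        · simp
        · simp only [Matrix.fromBlocks_apply₂₂, mul_zero, Matrix.diagonal_apply, ite_self]
          exact Qb.zero_mem
      | zero =>
        have h6 : tw κ a e ((0 : Matrix ι ι ℂ), (0 : ℂ)) = 0 := map_zero (tw κ a e)
        rw [h6]
        exact Submodule.zero_mem _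
      | add y z _ _ hy hz =>
        have h6 : tw κ a e (y + z, 0) = tw κ a e (y, 0) + tw κ a e (z, 0) := by
          rw [← map_add, Prod.mk_add_mk, add_zero]
        rw [h6]
        exact Submodule.add_mem _ hy hz
      | smul c y _ hy =>
        have h6 : tw κ a e (c • y, 0) = c • tw κ a e (y, 0) := by
          rw [← map_smul, Prod.smul_mk, smul_zero]
        rw [h6]
        exact Submodule.smul_mem _ _ hy
    have h6 : φ ⟨(x, u), hx⟩ = tw κ a e (x, 0) + u • tw κ a e (0, 1) := by
      change tw κ a e (x, u) = _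
      rw [← map_smul, ← map_add, Prod.smul_mk, Prod.mk_add_mk, smul_zero, add_zero, smul_eq_mul,
        mul_one, zero_add]
    rw [h6]
    refine Submodule.add_mem _ (h5 x hxs) (Submodule.smul_mem _ _ (Submodule.subset_span
      ⟨⟨⟨(0, 1), T.hd.zero_mem, trivial⟩, rfl⟩, fun i j => ?_⟩))
    rw [tw_apply]
    rcases i with i | i <;> rcases j with j | j
    · simp only [Matrix.fromBlocks_apply₁₁, zero_add, mul_one, Matrix.smul_apply,
        Matrix.one_apply, smul_eq_mul]
      split_ifs
      · rw [mul_one]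
        exact Qb.intCast_mem a
      · rw [mul_zero]
        exact Qb.zero_mem
    · simp
    · simp
    · simp only [Matrix.fromBlocks_apply₂₂, mul_one, Matrix.diagonal_apply]
      split_ifs
      · exact Qb.intCast_mem _
      · exact Qb.zero_mem
  · rintro ⟨hL, hKS, hSS⟩
    -- the logarithmic derivatives of `C` are defined over the algebraic numbers
    have hL1 : AlgSpan (logSpace T.C) := by
      rintro _ ⟨D, rfl⟩
      have h4 : tw κ a e (T.X D, lam D) ∈ logSpace (twisted T a e) :=
        (mem_log_twisted T a e _).2 ⟨D, rfl⟩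
      have h5 := hL _ h4
      have h6 : T.X D ∈ (Submodule.span ℂ {y | y ∈ logSpace (twisted T a e) ∧
          ∀ i j, y i j ∈ Qb}).map prj := ⟨_, h5, prj_tw hι a e (hd_trace (hXd D)) _⟩
      rw [Submodule.map_span] at h6
      refine Submodule.span_mono ?_ h6
      rintro _ ⟨y, ⟨hy, hya⟩, rfl⟩
      obtain ⟨E, hE⟩ := (mem_log_twisted T a e y).1 hy
      refine ⟨?_, fun i j => ?_⟩
      · rw [hE, prj_tw hι a e (hd_trace (hXd E))]
        exact ⟨E, rfl⟩
      · change y (Sum.inl i) (Sum.inl j) - ((∑ k, y (Sum.inl k) (Sum.inl k)) /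
          (Fintype.card ι : ℂ)) * (1 : Matrix ι ι ℂ) i j ∈ Qb
        refine Qb.sub_mem (hya _ _) (Qb.mul_mem (Qb.div_mem (sum_mem fun k _ => hya _ _)
          (Qb.natCast_mem _)) ?_)
        rw [Matrix.one_apply]
        split_ifs
        · exact Qb.one_mem
        · exact Qb.zero_mem
    have h1 : T.hd ≤ logSpace T.C :=
      (gen_log hL1).hd_le Qb_isAlg hD hKS hSS hZ hP d (by omega) (hW m h3 h5)
    have hall : ∀ x ∈ T.hd, ∃ D, T.X D = x := by
      intro x hx
      obtain ⟨D, hD⟩ := h1 hx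
      exact ⟨D, hD.symm⟩
    -- the part without twist
    let V : Submodule ℂ (Matrix ι ι ℂ) :=
      (logSpace (twisted T a e)).comap ((tw κ a e).comp (LinearMap.inl ℂ _ _))
    have hV : ∀ x ∈ T.hd, x ∈ V := by
      intro x hx
      refine hd_perfect hP d (by omega) V (fun x hx y hy => ?_) hx
      obtain ⟨D, rfl⟩ := hall x hx
      obtain ⟨E, rfl⟩ := hall y hy
      have h4 := bracket_mem hu hL ((mem_log_twisted T a e _).2 ⟨D, rfl⟩)
        ((mem_log_twisted T a e _).2 ⟨E, rfl⟩)
      rw [tw_bracket] at h4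
      exact h4
    have hfull : LinearMap.range φ ≤ logSpace (twisted T a e) := by
      rintro _ ⟨⟨⟨x, u⟩, hx⟩, rfl⟩
      obtain ⟨D, hD0⟩ := exists_lam
      have h4 : tw κ a e (T.X D, lam D) ∈ logSpace (twisted T a e) :=
        (mem_log_twisted T a e _).2 ⟨D, rfl⟩
      have h5 : tw κ a e (T.X D, 0) ∈ logSpace (twisted T a e) := hV _ (hXd D)
      have h6 : tw κ a e (x, 0) ∈ logSpace (twisted T a e) := hV _ hx.1
      have h7 : φ ⟨(x, u), hx⟩ = tw κ a e (x, 0) +
          (u / lam D) • (tw κ a e (T.X D, lam D) - tw κ a e (T.X D, 0)) := by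
        change tw κ a e (x, u) = _
        rw [← map_sub, ← map_smul, ← map_add]
        congr 1
        rw [Prod.mk_sub_mk, sub_self, sub_zero, Prod.smul_mk, smul_zero, Prod.mk_add_mk, add_zero,
          zero_add, smul_eq_mul, div_mul_cancel₀ _ hD0]
      rw [h7]
      exact Submodule.add_mem _ h6 (Submodule.smul_mem _ _ (Submodule.sub_mem _ h4 h5))
    rw [le_antisymm hle hfull, hfin]

end

end Pool.Agent.W537.TT
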