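import Pool.Agent.W537.TT.Pts

/-!
# Comparison of the ideals of two points, and minimal primes stable under derivations
-/

set_option linter.unusedSectionVars false

namespace Pool.Agent.W537.TT

open Pool.Agent.W537.DB MvPolynomial

noncomputable section

section cmp

variable {K L L' : Type} [Field K] [Field L] [Algebra K L] [Field L'] [Algebra K L']
variable {N : Type} [Fintype N] [DecidableEq N]

/-- A specialization with the same transcendence degree is generic. -/
theorem cmp (c : N → L) (c' : N → L') (h : ∀ p : MvPolynomial N K, aeval c p = 0 → aeval c' p = 0)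
    (ht : Algebra.trdeg K (IntermediateField.adjoin K (Set.range c)) ≤
      Algebra.trdeg K (IntermediateField.adjoin K (Set.range c')))
    (p : MvPolynomial N K) (hp : aeval c' p = 0) : aeval c p = 0 := by
  by_contra hne
  obtain ⟨t, _, f, hv, -, hcard⟩ := exists_basis (K := K) c'
  set F : IntermediateField K L := IntermediateField.adjoin K (Set.range c) with hF
  let cF : N → F := fun n => ⟨c n, IntermediateField.subset_adjoin _ _ ⟨n, rfl⟩⟩
  have hcF : ∀ q : MvPolynomial N K, ((aeval cF q : F) : L) = aeval c q := fun q =>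
    comp_aeval_apply cF F.val q
  have hv1 : AlgebraicIndependent K (cF ∘ f) := by
    rw [algebraicIndependent_iff]
    intro q hq
    have h1 : aeval cF (rename f q) = 0 := by rw [aeval_rename]; exact hq
    have h2 : aeval c (rename f q) = 0 := by rw [← hcF, h1]; rfl
    have h3 := h _ h2
    rw [aeval_rename] at h3
    exact algebraicIndependent_iff.1 hv q h3
  have hb : IsTranscendenceBasis K (cF ∘ f) := by
    apply hv1.isTranscendenceBasis_of_trdeg_le_of_finite
    rw [Cardinal.mk_fintype, ← hcard]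
    exact ht
  have h4 : Algebra.IsAlgebraic (Algebra.adjoin K (Set.range (cF ∘ f))) F := hb.isAlgebraic
  have h5 : (aeval cF p : F) ≠ 0 := by
    intro h6
    apply hne
    rw [← hcF, h6]
    rfl
  obtain ⟨P, hP0, hP⟩ := (h4.isAlgebraic (aeval cF p)).exists_nonzero_coeff_and_aeval_eq_zero
    (mem_nonZeroDivisors_of_ne_zero h5)
  let e := hv1.aevalEquiv
  have he : ∀ y : Algebra.adjoin K (Set.range (cF ∘ f)),
      (aeval (cF ∘ f) (e.symm y) : F) = (y : F) := by
    intro y
    have h7 := hv1.algebraMap_aevalEquiv (e.symm y)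
    rw [← h7, AlgEquiv.apply_symm_apply]
    rfl
  let P' : Polynomial (MvPolynomial t K) := P.map (e.symm : _ →+* MvPolynomial t K)
  let H : MvPolynomial N K := Polynomial.eval₂ (rename f : MvPolynomial t K →ₐ[K] _).toRingHom p P'
  have hH : ∀ {E : Type} [Field E] [Algebra K E] (z : N → E), aeval z H =
      Polynomial.eval₂ (aeval (z ∘ f) : MvPolynomial t K →ₐ[K] E).toRingHom (aeval z p) P' := by
    intro E _ _ z
    change (aeval z : MvPolynomial N K →ₐ[K] E).toRingHom _ = _
    rw [Polynomial.hom_eval₂]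
    congr 1
    refine RingHom.ext fun q => ?_
    exact aeval_rename f z q
  have h8 : aeval cF H = 0 := by
    rw [hH, ← hP, Polynomial.aeval_def, Polynomial.eval₂_map]
    congr 1
    refine RingHom.ext fun y => ?_
    exact he y
  have h9 : aeval c H = 0 := by rw [← hcF, h8]; rfl
  have h10 := h H h9
  rw [hH, hp, Polynomial.eval₂_at_zero] at h10
  have h11 : P'.coeff 0 = 0 := algebraicIndependent_iff.1 hv _ h10
  rw [Polynomial.coeff_map] at h11
  apply hP0
  have h12 : e.symm (P.coeff 0) = 0 := h11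
  rwa [map_eq_zero_iff e.symm e.symm.injective] at h12

end cmp

section stable

variable {R : Type} [CommRing R] [Algebra ℚ R] (D : Derivation ℤ R R)

theorem iter (s q : R) (k : ℕ) : ∀ m : ℕ, ∃ c : ℕ, c ≠ 0 ∧ ∃ r : R,
    D^[k] (s * q ^ (m + k)) = c * s * q ^ m * (D q) ^ k + q ^ (m + 1) * r := by
  induction k with
  | zero =>
    intro m
    refine ⟨1, one_ne_zero, 0, ?_⟩
    simp
  | succ k ih =>
    intro m
    obtain ⟨c, hc, r, hr⟩ := ih (m + 1)
    refine ⟨c * (m + 1), by positivity, ?_⟩
    rw [Function.iterate_succ_apply', show m + (k + 1) = m + 1 + k by ring, hr]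
    refine ⟨c * D s * (D q) ^ k + c * s * (k * (D q) ^ (k - 1) * D (D q)) +
      (m + 2) * D q * r + q * D r, ?_⟩
    have e1 : D ((c : R)) = 0 := D.map_natCast c
    rw [map_add, Derivation.leibniz, Derivation.leibniz, Derivation.leibniz, Derivation.leibniz,
      Derivation.leibniz_pow, Derivation.leibniz_pow, Derivation.leibniz_pow, e1]
    simp only [smul_eq_mul, nsmul_eq_mul, Nat.add_sub_cancel]
    push_cast
    ring

/-- The minimal primes over an ideal stable under a derivation are stable. -/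
theorem stable_min {J 𝔭 : Ideal R} (hJ : ∀ a ∈ J, D a ∈ J) (h𝔭 : 𝔭 ∈ J.minimalPrimes) {q : R}
    (hq : q ∈ 𝔭) : D q ∈ 𝔭 := by
  have hpr : 𝔭.IsPrime := h𝔭.1.1
  by_contra hDq
  -- some `s * q ^ n` lies in `J`
  have h1 : ∃ s ∉ 𝔭, ∃ n : ℕ, s * q ^ n ∈ J := by
    by_contra hno
    push Not at hno
    let S : Submonoid R :=
      { carrier := {x | ∃ s ∉ 𝔭, ∃ n : ℕ, x = s * q ^ n}
        one_mem' := ⟨1, fun h => hpr.ne_top ((Ideal.eq_top_iff_one _).2 h), 0, by simp⟩
        mul_mem' := by
          rintro _ _ ⟨s, hs, n, rfl⟩ ⟨s', hs', n', rfl⟩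
          refine ⟨s * s', fun h => ?_, n + n', by ring⟩
          rcases hpr.mem_or_mem h with h | h
          · exact hs h
          · exact hs' h }
    have hdis : Disjoint (J : Set R) S := by
      rw [Set.disjoint_left]
      rintro x hx ⟨s, hs, n, rfl⟩
      exact hno s hs n hx
    obtain ⟨𝔮, h𝔮, hJ𝔮, h𝔮S⟩ := Ideal.exists_le_prime_disjoint J S hdis
    have hle : 𝔮 ≤ 𝔭 := by
      intro x hx
      by_contra hxp
      exact Set.disjoint_left.1 h𝔮S hx ⟨x, hxp, 0, by simp⟩
    have hle' := h𝔭.2 ⟨h𝔮, hJ𝔮⟩ hle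
    exact Set.disjoint_left.1 h𝔮S (hle' hq)
      ⟨1, fun h => hpr.ne_top ((Ideal.eq_top_iff_one _).2 h), 1, by simp⟩
  obtain ⟨s, hs, n, hn⟩ := h1
  have h2 : ∀ k, ∀ a ∈ J, D^[k] a ∈ J := by
    intro k
    induction k with
    | zero => exact fun a ha => ha
    | succ k ih =>
      intro a ha
      rw [Function.iterate_succ_apply']
      exact hJ _ (ih a ha)
  obtain ⟨c, hc, r, hr⟩ := iter D s q n 0
  rw [zero_add, pow_zero, mul_one, zero_add, pow_one] at hr
  have h3 : (c : R) * s * (D q) ^ n ∈ 𝔭 := by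
    have h4 := h𝔭.1.2 (h2 n _ hn)
    rw [hr] at h4
    have h5 : q * r ∈ 𝔭 := 𝔭.mul_mem_right r hq
    have h6 := 𝔭.sub_mem h4 h5
    rwa [add_sub_cancel_right] at h6
  have h7 : (c : R) ∉ 𝔭 := by
    intro h8
    apply hpr.ne_top
    rw [Ideal.eq_top_iff_one]
    have h9 : (1 : R) = algebraMap ℚ R (1 / c) * c := by
      have h10 : ((c : ℕ) : R) = algebraMap ℚ R c := by rw [map_natCast]
      rw [h10, ← map_mul, one_div_mul_cancel (Nat.cast_ne_zero.2 hc), map_one]
    rw [h9]
    exact 𝔭.mul_mem_left _ h8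
  rcases hpr.mem_or_mem h3 with h | h
  · rcases hpr.mem_or_mem h with h | h
    · exact h7 h
    · exact hs h
  · exact hDq (hpr.mem_of_pow_mem n h)

end stable

end

end Pool.Agent.W537.TT
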