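import Pool.Agent.W537.TT.Tors

/-!
# Ideals stable under the derivations of a linear Lie algebra
-/

set_option linter.unusedSectionVars false

namespace Pool.Agent.W537.TT

open Pool.Agent.W537.DB MvPolynomial

noncomputable section

section dual

/-- A homomorphism from a subring into the dual numbers which lifts the inclusion is given by a
derivation. -/
theorem ext_der_general {L : Type} [Field L] [CharZero L] {A : Type} [CommRing A] [IsDomain A]
    (g : A →+* L) (hg : Function.Injective g)
    (θ : A →+* DualNumber L) (hθ : ∀ a, (θ a).fst = g a) :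
    ∃ D : Derivation ℤ L L, ∀ a, D (g a) = (θ a).snd := by
  let g0 : FractionRing A →+* L := IsFractionRing.lift (K := FractionRing A) hg
  let π : DualNumber L →+* L := (TrivSqZeroExt.fstHom L L L).toRingHom
  have hπt : π.comp θ = g := RingHom.ext hθ
  have ht : ∀ y : nonZeroDivisors A, IsUnit (θ y) := by
    intro y
    rw [TrivSqZeroExt.isUnit_iff_isUnit_fst, hθ, isUnit_iff_ne_zero]
    intro h2
    rw [map_eq_zero_iff g hg] at h2
    exact nonZeroDivisors.ne_zero y.2 h2
  let Θ : FractionRing A →+* DualNumber L := IsLocalization.lift ht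
  have hΘ : π.comp Θ = g0 := by
    apply IsLocalization.ringHom_ext (nonZeroDivisors A)
    rw [RingHom.comp_assoc, IsLocalization.lift_comp, hπt]
    refine RingHom.ext fun x => ?_
    rw [RingHom.comp_apply]
    exact (IsFractionRing.lift_algebraMap hg x).symm
  have hπs : Function.Surjective π := fun x => ⟨TrivSqZeroExt.inl x, rfl⟩
  have hsq : IsNilpotent (RingHom.ker π) := by
    refine ⟨2, ?_⟩
    have h1 : RingHom.ker π * RingHom.ker π ≤ ⊥ := by
      rw [Ideal.mul_le]
      intro a ha b hb
      have ha' : a.fst = 0 := ha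
      have hb' : b.fst = 0 := hb
      rw [Ideal.mem_bot]
      ext
      · simp [ha']
      · simp [ha', hb']
    have h2 : RingHom.ker π ^ 2 = RingHom.ker π * RingHom.ker π := sq _
    rw [h2]
    exact le_bot_iff.1 h1
  have hch : CharZero (FractionRing A) := by
    refine ⟨fun a b hab => ?_⟩
    have h3 := congrArg g0 hab
    rw [map_natCast, map_natCast] at h3
    exact_mod_cast h3
  obtain ⟨Φ, hΦ1, hΦ2⟩ := Pool.Agent.H23R2.exists_lift g0 (DualNumber L) π hπs hsq Θ hΘ
  have hfst : ∀ x, (Φ x).fst = x := hΦ1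
  let D : Derivation ℤ L L := Derivation.mk'
    ({ toFun := fun x => (Φ x).snd
       map_add' := fun x y => by simp
       map_smul' := fun c x => by simp } : L →ₗ[ℤ] L)
    (by
      intro a b
      change (Φ (a * b)).snd = a • (Φ b).snd + b • (Φ a).snd
      rw [map_mul, TrivSqZeroExt.snd_mul, hfst, hfst]
      simp [mul_comm])
  refine ⟨D, fun a => ?_⟩
  have h1 : g0 (algebraMap A _ a) = g a := IsFractionRing.lift_algebraMap hg a
  have h2 : Φ (g a) = θ a := by
    rw [← h1, hΦ2, IsLocalization.lift_eq]
  change (Φ (g a)).snd = _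
  rw [h2]

/-- Linearly independent vectors have a dual family. -/
theorem exists_dual {k : Type} [Field k] {N b : Type} [Fintype N] [DecidableEq N] [Fintype b]
    [DecidableEq b] (x : b → N → k) (hx : LinearIndependent k x) :
    ∃ γ : b → N → k, ∀ i j, ∑ n, γ i n * x j n = if i = j then 1 else 0 := by
  let φ : (b → k) →ₗ[k] (N → k) := Fintype.linearCombination k x
  have hφ : LinearMap.ker φ = ⊥ := by
    rw [LinearMap.ker_eq_bot]
    exact linearIndependent_iff_injective_fintypeLinearCombination.1 hx
  obtain ⟨G, hG⟩ := LinearMap.exists_leftInverse_of_injective φ hφ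
  refine ⟨fun i n => G (Pi.single n 1) i, fun i j => ?_⟩
  have h1 : G (x j) = Pi.single j 1 := by
    have h2 : φ (Pi.single j 1) = x j := by
      rw [Fintype.linearCombination_apply_single, one_smul]
    rw [← h2]
    exact LinearMap.congr_fun hG _
  have h3 : x j = ∑ n, x j n • (Pi.single n 1 : N → k) := by
    funext m
    rw [Finset.sum_apply]
    simp [Pi.single_apply]
  have h4 := congrFun h1 i
  rw [h3, map_sum, Finset.sum_apply] at h4
  simp only [map_smul, Pi.smul_apply, smul_eq_mul] at h4
  rw [Finset.sum_congr rfl fun n _ => mul_comm _ _, h4, Pi.single_apply]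

end dual

section deriv

variable {N : Type} [Fintype N] [DecidableEq N]

/-- Compatibility of a derivation of the polynomial ring with a derivation of a field. -/
theorem der_compat {L : Type} [Field L] [Algebra Qb L] (c : N → L) (D : Derivation ℤ L L)
    (hD : ∀ a : Qb, D (algebraMap Qb L a) = 0)
    (E : Derivation Qb (MvPolynomial N Qb) (MvPolynomial N Qb))
    (h : ∀ n, D (c n) = aeval c (E (X n))) (p : MvPolynomial N Qb) :
    D (aeval c p) = aeval c (E p) := by
  induction p using MvPolynomial.induction_on with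
  | C a =>
    rw [algHom_C, hD]
    have h1 : E (C a) = 0 := E.map_algebraMap a
    rw [h1, map_zero]
  | add p q hp hq => rw [map_add, map_add, map_add, map_add, hp, hq]
  | mul_X p i hp =>
    rw [map_mul, Derivation.leibniz, Derivation.leibniz, hp, aeval_X, h, map_add]
    simp only [smul_eq_mul, map_mul, aeval_X]

variable {ι : Type} [Fintype ι] [DecidableEq ι]

/-- The derivation of the polynomial ring given by the right multiplication by `x`. -/
def Dx (x : Matrix ι ι Qb) :
    Derivation Qb (MvPolynomial (ι × ι) Qb) (MvPolynomial (ι × ι) Qb) :=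
  mkDerivation Qb (vc (gm Qb * x.map MvPolynomial.C))

theorem aeval_Dx_X {B : Type} [CommRing B] [Algebra Qb B] (x : Matrix ι ι Qb) (z : Matrix ι ι B)
    (n : ι × ι) : aeval (vc z) (Dx x (X n)) = vc (z * x.map (algebraMap Qb B)) n := by
  unfold Dx
  rw [mkDerivation_X]
  change aeval (vc z) ((gm Qb * x.map MvPolynomial.C : Matrix ι ι (MvPolynomial (ι × ι) Qb))
    n.1 n.2) = (z * x.map (algebraMap Qb B)) n.1 n.2
  rw [Matrix.mul_apply, Matrix.mul_apply, map_sum]
  refine Finset.sum_congr rfl fun k _ => ?_
  rw [map_mul, Matrix.map_apply, Matrix.map_apply, algHom_C]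
  congr 1
  change aeval (vc z) (X (n.1, k)) = _
  rw [aeval_X]
  rfl

/-- The algebraic logarithmic derivatives. -/
def algLog (C : Matrix ι ι ℂ) : Set (Matrix ι ι Qb) :=
  {x | x.map (algebraMap Qb ℂ) ∈ logSpace C}

/-- The ideal of the closure is stable under the derivations. -/
theorem van_stable {C : Matrix ι ι ℂ} (hC : IsUnit C) {x : Matrix ι ι Qb} (hx : x ∈ algLog C)
    {p : MvPolynomial (ι × ι) Qb} (hp : aeval (vc C) p = 0) : aeval (vc C) (Dx x p) = 0 := by
  obtain ⟨D, hD⟩ := hx
  have h1 : C.map D = C * x.map (algebraMap Qb ℂ) := by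
    rw [hD, ← Matrix.mul_assoc, mul_inv' hC, Matrix.one_mul]
  rw [← der_compat (vc C) D (der_Qb D) (Dx x) (fun n => ?_), hp, map_zero]
  rw [aeval_Dx_X, ← h1]
  rfl

theorem exists_frac (A : Type) [CommRing A] [IsDomain A] :
    ∃ (F : Type) (_ : Field F) (g : A →+* F), Function.Injective g :=
  ⟨FractionRing A, inferInstance, algebraMap A _, IsFractionRing.injective A (FractionRing A)⟩

/-- The generic point of a prime ideal. -/
theorem exists_generic {N : Type} (𝔭 : Ideal (MvPolynomial N Qb)) [h𝔭 : 𝔭.IsPrime] :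
    ∃ (F : Type) (_ : Field F) (_ : Algebra Qb F) (c : N → F), ∀ p, aeval c p = 0 ↔ p ∈ 𝔭 := by
  obtain ⟨F, _, g, hg⟩ := exists_frac (MvPolynomial N Qb ⧸ 𝔭)
  let q : MvPolynomial N Qb →+* (MvPolynomial N Qb ⧸ 𝔭) := Ideal.Quotient.mk 𝔭
  refine ⟨F, inferInstance, ((g.comp q).comp C).toAlgebra, fun n => g (q (X n)), fun p => ?_⟩
  let _ : Algebra Qb F := ((g.comp q).comp C).toAlgebra
  have h1 : ((aeval fun n => g (q (X n))) : MvPolynomial N Qb →ₐ[Qb] F).toRingHom = g.comp q := by
    apply MvPolynomial.ringHom_ext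
    · intro a
      change aeval (fun n => g (q (X n))) (C a) = _
      rw [algHom_C]
      rfl
    · intro n
      change aeval (fun n => g (q (X n))) (X n) = _
      rw [aeval_X]
      rfl
  have h2 : aeval (fun n => g (q (X n))) p = g (q p) := RingHom.congr_fun h1 p
  rw [h2, map_eq_zero_iff g hg]
  exact Ideal.Quotient.eq_zero_iff_mem

/-- The derivations of the function field. -/
theorem exists_der_field {F : Type} [Field F] [Algebra Qb F] [CharZero F]
    (𝔭 : Ideal (MvPolynomial (ι × ι) Qb)) [h𝔭 : 𝔭.IsPrime] (c : ι × ι → F)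
    (hker : ∀ p : MvPolynomial (ι × ι) Qb, aeval c p = 0 ↔ p ∈ 𝔭)
    (E : Derivation Qb (MvPolynomial (ι × ι) Qb) (MvPolynomial (ι × ι) Qb))
    (hst : ∀ p ∈ 𝔭, E p ∈ 𝔭) :
    ∃ D : Derivation ℤ F F, (∀ a : Qb, D (algebraMap Qb F a) = 0) ∧
      ∀ n, D (c n) = aeval c (E (X n)) := by
  let g0 : MvPolynomial (ι × ι) Qb →+* F := (aeval c : MvPolynomial (ι × ι) Qb →ₐ[Qb] F).toRingHom
  let θ0 : MvPolynomial (ι × ι) Qb →+* DualNumber F :=
    { toFun := fun p => TrivSqZeroExt.inl (aeval c p) + TrivSqZeroExt.inr (aeval c (E p))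
      map_one' := by
        ext
        · simp
        · simp
      map_zero' := by
        ext
        · simp
        · simp
      map_mul' := by
        intro p q
        ext
        · simp
        · simp [Derivation.leibniz, mul_comm]
      map_add' := by
        intro p q
        ext <;> simp }
  have hθ0 : ∀ p ∈ 𝔭, θ0 p = 0 := by
    intro p hp
    change TrivSqZeroExt.inl (aeval c p) + TrivSqZeroExt.inr (aeval c (E p)) = 0
    rw [(hker p).2 hp, (hker _).2 (hst p hp)]
    simp
  let θ : (MvPolynomial (ι × ι) Qb ⧸ 𝔭) →+* DualNumber F := Ideal.Quotient.lift 𝔭 θ0 hθ0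
  let g : (MvPolynomial (ι × ι) Qb ⧸ 𝔭) →+* F :=
    Ideal.Quotient.lift 𝔭 g0 (fun p hp => (hker p).2 hp)
  have hg : Function.Injective g := by
    rw [injective_iff_map_eq_zero]
    intro a ha
    obtain ⟨p, rfl⟩ := Ideal.Quotient.mk_surjective a
    exact Ideal.Quotient.eq_zero_iff_mem.2 ((hker p).1 ha)
  have hθ : ∀ a, (θ a).fst = g a := by
    intro a
    obtain ⟨p, rfl⟩ := Ideal.Quotient.mk_surjective a
    change (TrivSqZeroExt.inl (aeval c p) + TrivSqZeroExt.inr (aeval c (E p)) :
      DualNumber F).fst = aeval c p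
    simp
  obtain ⟨D, hD⟩ := ext_der_general (A := MvPolynomial (ι × ι) Qb ⧸ 𝔭) g hg θ hθ
  have hD' : ∀ p : MvPolynomial (ι × ι) Qb, D (aeval c p) = aeval c (E p) := by
    intro p
    have h1 := hD (Ideal.Quotient.mk 𝔭 p)
    have h2 : (θ (Ideal.Quotient.mk 𝔭 p)).snd = aeval c (E p) := by
      change (TrivSqZeroExt.inl (aeval c p) + TrivSqZeroExt.inr (aeval c (E p)) :
        DualNumber F).snd = _
      simp
    rw [h2] at h1
    exact h1
  refine ⟨D, fun a => ?_, fun n => ?_⟩
  · have h1 := hD' (C a)
    rw [algHom_C] at h1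
    rw [h1]
    have h2 : E (C a) = 0 := E.map_algebraMap a
    rw [h2, map_zero]
  · have h1 := hD' (X n)
    rwa [aeval_X] at h1

/-- Lower bound for the transcendence degree at a stable prime ideal. -/
theorem trdeg_ge {d : ℕ} (x : Fin d → Matrix ι ι Qb)
    (hx : LinearIndependent Qb fun i => vc (x i)) (𝔭 : Ideal (MvPolynomial (ι × ι) Qb))
    [h𝔭 : 𝔭.IsPrime] (hst : ∀ i, ∀ p ∈ 𝔭, Dx (x i) p ∈ 𝔭)
    (hdet : (gm Qb : Matrix ι ι (MvPolynomial (ι × ι) Qb)).det ∉ 𝔭)
    {F : Type} [Field F] [Algebra Qb F] (c : ι × ι → F)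
    (hker : ∀ p : MvPolynomial (ι × ι) Qb, aeval c p = 0 ↔ p ∈ 𝔭) :
    (d : Cardinal) ≤ Algebra.trdeg Qb (IntermediateField.adjoin Qb (Set.range c)) := by
  classical
  have hchar : CharZero F := by
    refine ⟨fun a b hab => ?_⟩
    have h1 : algebraMap Qb F a = algebraMap Qb F b := by rw [map_natCast, map_natCast, hab]
    have h2 := (algebraMap Qb F).injective h1
    exact_mod_cast h2
  have hder := fun i => exists_der_field 𝔭 c hker (Dx (x i)) (hst i)
  choose D hDQ hDc using hder
  obtain ⟨t, _, f, -, halg, hcard⟩ := exists_basis (K := Qb) c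
  rw [hcard]
  let Cm : Matrix ι ι F := Matrix.of fun i j => c (i, j)
  have hCm : vc Cm = c := rfl
  have hCmdet : IsUnit Cm.det := by
    rw [isUnit_iff_ne_zero, ← aeval_det Cm, hCm]
    exact fun h => hdet ((hker _).1 h)
  let ψ : (Fin d → F) →ₗ[F] (t → F) :=
    { toFun := fun a y => ∑ i, a i * D i (c (f y))
      map_add' := by
        intro a b
        funext y
        simp only [Pi.add_apply, add_mul, Finset.sum_add_distrib]
      map_smul' := by
        intro r a
        funext y
        simp only [Pi.smul_apply, smul_eq_mul, RingHom.id_apply, Finset.mul_sum, mul_assoc] }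
  have hψ : Function.Injective ψ := by
    rw [← LinearMap.ker_eq_bot, LinearMap.ker_eq_bot']
    intro a ha
    have hsum : ∀ s : Finset (Fin d), ∃ E : Derivation ℤ F F, ∀ z, E z = ∑ i ∈ s, a i * D i z := by
      intro s
      induction s using Finset.induction_on with
      | empty => exact ⟨0, fun z => by simp⟩
      | insert i s hi ih =>
        obtain ⟨E, hE⟩ := ih
        exact ⟨a i • D i + E, fun z => by
          rw [Finset.sum_insert hi, Derivation.add_apply, Derivation.smul_apply, hE, smul_eq_mul]⟩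
    obtain ⟨E, hE⟩ := hsum Finset.univ
    have hEQ : ∀ q : Qb, E (algebraMap Qb F q) = 0 := by
      intro q
      rw [hE]
      exact Finset.sum_eq_zero fun i _ => by rw [hDQ, mul_zero]
    let E' : Derivation Qb F F := Derivation.mk'
      { toFun := E
        map_add' := map_add E
        map_smul' := by
          intro q z
          rw [RingHom.id_apply, Algebra.smul_def, Algebra.smul_def]
          rw [Derivation.leibniz, hEQ, smul_zero, add_zero, smul_eq_mul] }
      (fun u v => E.leibniz u v)
    have hE0 : ∀ n, E (c n) = 0 := by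
      intro n
      change E' (c n) = 0
      refine der_alg_adjoin E' (S := Set.range (c ∘ f)) ?_ (halg n)
      rintro _ ⟨y, rfl⟩
      change E (c (f y)) = 0
      rw [hE]
      exact congrFun ha y
    -- the matrix relation
    have h1 : Cm * (∑ i, a i • (x i).map (algebraMap Qb F)) = 0 := by
      ext r s
      have h2 := hE0 (r, s)
      rw [hE] at h2
      rw [Matrix.mul_sum, Matrix.sum_apply, Matrix.zero_apply, ← h2]
      refine Finset.sum_congr rfl fun i _ => ?_
      rw [Matrix.mul_smul, Matrix.smul_apply, smul_eq_mul, hDc]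
      have h3 := aeval_Dx_X (x i) Cm (r, s)
      rw [hCm] at h3
      rw [h3]
      rfl
    have h2 : (∑ i, a i • (x i).map (algebraMap Qb F)) = 0 := by
      have h3 := congrArg (fun M => Cm⁻¹ * M) h1
      simp only [← Matrix.mul_assoc, Matrix.nonsing_inv_mul _ hCmdet, Matrix.one_mul,
        Matrix.mul_zero] at h3
      exact h3
    obtain ⟨γ, hγ⟩ := exists_dual (fun i => vc (x i)) hx
    funext i
    have h3 : ∑ n, algebraMap Qb F (γ i n) * vc (∑ j, a j • (x j).map (algebraMap Qb F)) n = 0 := by
      rw [h2]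
      exact Finset.sum_eq_zero fun n _ => mul_zero _
    have h4 : ∀ n, vc (∑ j, a j • (x j).map (algebraMap Qb F)) n =
        ∑ j, a j * algebraMap Qb F (vc (x j) n) := by
      intro n
      change (∑ j, a j • (x j).map (algebraMap Qb F)) n.1 n.2 = _
      rw [Matrix.sum_apply]
      rfl
    simp only [h4, Finset.mul_sum] at h3
    rw [Finset.sum_comm] at h3
    have h5 : ∀ j, ∑ n, algebraMap Qb F (γ i n) * (a j * algebraMap Qb F (vc (x j) n)) =
        if i = j then a j else 0 := by
      intro j
      have h6 : ∀ n, algebraMap Qb F (γ i n) * (a j * algebraMap Qb F (vc (x j) n)) =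
          a j * algebraMap Qb F (γ i n * vc (x j) n) := by
        intro n
        rw [map_mul]
        ring
      rw [Finset.sum_congr rfl fun n _ => h6 n, ← Finset.mul_sum, ← map_sum, hγ]
      split_ifs
      · rw [map_one, mul_one]
      · rw [map_zero, mul_zero]
    rw [Finset.sum_congr rfl fun j _ => h5 j, Finset.sum_ite_eq, if_pos (Finset.mem_univ i)] at h3
    exact h3
  have h6 := LinearMap.finrank_le_finrank_of_injective hψ
  rw [Module.finrank_fintype_fun_eq_card, Module.finrank_fintype_fun_eq_card, Fintype.card_fin]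
    at h6
  exact_mod_cast h6

end deriv

end

end Pool.Agent.W537.TT
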