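import Pool.Agent.W537.TT.Trd

/-!
# The closure of a point over the algebraic numbers, and its tangent spaces
-/

set_option linter.unusedSectionVars false

namespace Pool.Agent.W537.TT

open Pool.Agent.W537.DB MvPolynomial

noncomputable section

variable {N : Type} [Fintype N] [DecidableEq N]

/-- The field of algebraic numbers. -/
abbrev Qb : IntermediateField ℚ ℂ := algebraicClosure ℚ ℂ

instance isAlgClosed_Qb : IsAlgClosed Qb :=
  (algebraicClosure.isAlgClosure (F := ℚ) (E := ℂ)).isAlgClosed

theorem Qb_alg (a : Qb) : IsAlgebraic ℚ (a : ℂ) := mem_algebraicClosure_iff.1 a.2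

theorem der_Qb (D : Derivation ℤ ℂ ℂ) (a : Qb) : D (algebraMap Qb ℂ a) = 0 := der_alg D (Qb_alg a)

/-- The points with coordinates in `B` of the closure of the point `c` over the field of algebraic
numbers. -/
def pts (c : N → ℂ) (B : Type) [CommRing B] [Algebra Qb B] : Set (N → B) :=
  {z | ∀ p : MvPolynomial N Qb, aeval c p = 0 → aeval z p = 0}

/-- The closure of the point `c`: the zeros of all polynomials with algebraic coefficients which
vanish at `c`. -/
def clos (c : N → ℂ) : Set (N → ℂ) := pts c ℂ

theorem self_mem (c : N → ℂ) : c ∈ clos c := fun _ h => h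

/-- The point `z + ε w`. -/
def ep (z w : N → ℂ) : N → DualNumber ℂ :=
  fun n => TrivSqZeroExt.inl (z n) + TrivSqZeroExt.inr (w n)

/-- A derivation gives a homomorphism into the dual numbers. -/
def derA (D : Derivation ℤ ℂ ℂ) : ℂ →ₐ[Qb] DualNumber ℂ where
  toFun x := TrivSqZeroExt.inl x + TrivSqZeroExt.inr (D x)
  map_one' := by simp
  map_zero' := by simp
  map_mul' x y := by
    ext
    · simp
    · simp [Derivation.leibniz, mul_comm]
  map_add' x y := by
    ext <;> simp
  commutes' a := by
    change TrivSqZeroExt.inl (algebraMap Qb ℂ a) + TrivSqZeroExt.inr (D (algebraMap Qb ℂ a)) = _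
    rw [der_Qb, TrivSqZeroExt.inr_zero, add_zero]
    rfl

theorem derA_comp (D : Derivation ℤ ℂ ℂ) (c : N → ℂ) :
    (fun n => derA D (c n)) = ep c (fun n => D (c n)) := rfl

/-- A ring homomorphism from a subring into the dual numbers which lifts the inclusion is given by
a derivation of the complex numbers. -/
theorem ext_der {A : Type} [CommRing A] [IsDomain A] (g : A →+* ℂ) (hg : Function.Injective g)
    (θ : A →+* DualNumber ℂ) (hθ : ∀ a, (θ a).fst = g a) :
    ∃ D : Derivation ℤ ℂ ℂ, ∀ a, D (g a) = (θ a).snd := by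
  let g0 : FractionRing A →+* ℂ := IsFractionRing.lift (K := FractionRing A) hg
  let π : DualNumber ℂ →+* ℂ := (TrivSqZeroExt.fstHom ℂ ℂ ℂ).toRingHom
  have hπt : π.comp θ = g := RingHom.ext hθ
  have ht : ∀ y : nonZeroDivisors A, IsUnit (θ y) := by
    intro y
    rw [TrivSqZeroExt.isUnit_iff_isUnit_fst, hθ, isUnit_iff_ne_zero]
    intro h2
    rw [map_eq_zero_iff g hg] at h2
    exact nonZeroDivisors.ne_zero y.2 h2
  let Θ : FractionRing A →+* DualNumber ℂ := IsLocalization.lift ht
  have hΘ : π.comp Θ = g0 := by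
    apply IsLocalization.ringHom_ext (nonZeroDivisors A)
    rw [RingHom.comp_assoc, IsLocalization.lift_comp, hπt]
    refine RingHom.ext fun x => ?_
    rw [RingHom.comp_apply]
    exact (IsFractionRing.lift_algebraMap hg x).symm
  have hπs : Function.Surjective π := fun x => ⟨TrivSqZeroExt.inl x, rfl⟩
  have hsq : IsNilpotent (RingHom.ker π) := by
    refine ⟨2, ?_⟩
    have h1 : RingHom.ker π * RingHom.ker π ≤ ⊥ := by
      rw [Ideal.mul_le]
      intro a ha b hb
      have ha' : a.fst = 0 := ha
      have hb' : b.fst = 0 := hb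
      rw [Ideal.mem_bot]
      ext
      · simp [ha']
      · simp [ha', hb']
    have h2 : RingHom.ker π ^ 2 = RingHom.ker π * RingHom.ker π := sq _
    rw [h2]
    exact le_bot_iff.1 h1
  have hch : CharZero (FractionRing A) := by
    refine ⟨fun a b hab => ?_⟩
    have h3 := congrArg g0 hab
    rw [map_natCast, map_natCast] at h3
    exact_mod_cast h3
  obtain ⟨Φ, hΦ1, hΦ2⟩ := Pool.Agent.H23R2.exists_lift g0 (DualNumber ℂ) π hπs hsq Θ hΘ
  have hfst : ∀ x, (Φ x).fst = x := hΦ1
  let D : Derivation ℤ ℂ ℂ := Derivation.mk'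
    ({ toFun := fun x => (Φ x).snd
       map_add' := fun x y => by simp
       map_smul' := fun c x => by simp } : ℂ →ₗ[ℤ] ℂ)
    (by
      intro a b
      change (Φ (a * b)).snd = a • (Φ b).snd + b • (Φ a).snd
      rw [map_mul, TrivSqZeroExt.snd_mul, hfst, hfst]
      simp [mul_comm])
  refine ⟨D, fun a => ?_⟩
  have h1 : g0 (algebraMap A _ a) = g a := IsFractionRing.lift_algebraMap hg a
  have h2 : Φ (g a) = θ a := by
    rw [← h1, hΦ2, IsLocalization.lift_eq]
  change (Φ (g a)).snd = _
  rw [h2]

theorem fst_aeval_ep (z w : N → ℂ) (p : MvPolynomial N Qb) :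
    (aeval (ep z w) p).fst = aeval z p := by
  have h1 := comp_aeval_apply (ep z w) ((TrivSqZeroExt.fstHom ℂ ℂ ℂ).restrictScalars Qb) p
  have h2 : (fun n => ((TrivSqZeroExt.fstHom ℂ ℂ ℂ).restrictScalars Qb) (ep z w n)) = z := by
    funext n
    change (ep z w n).fst = z n
    simp [ep]
  rw [h2] at h1
  exact h1

/-- The space of the values of the derivations is the tangent space. -/
theorem mem_derSpace_iff (c w : N → ℂ) : w ∈ derSpace c ↔ ep c w ∈ pts c (DualNumber ℂ) := by
  constructor
  · rintro ⟨D, hD⟩ p hp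
    have h1 : ep c w = fun n => derA D (c n) := by
      rw [derA_comp]
      congr 1
      funext n
      exact (hD n).symm
    rw [h1]
    have h2 := comp_aeval_apply c (derA D) p
    rw [hp, map_zero] at h2
    exact h2.symm
  · intro h
    let φ : MvPolynomial N Qb →+* ℂ := (aeval c : MvPolynomial N Qb →ₐ[Qb] ℂ).toRingHom
    let g : (MvPolynomial N Qb ⧸ RingHom.ker φ) →+* ℂ := RingHom.kerLift φ
    have hg : Function.Injective g := RingHom.kerLift_injective φ
    have hpr : (RingHom.ker φ).IsPrime := RingHom.ker_isPrime φ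
    have : IsDomain (MvPolynomial N Qb ⧸ RingHom.ker φ) := Ideal.Quotient.isDomain _
    let θ : (MvPolynomial N Qb ⧸ RingHom.ker φ) →+* DualNumber ℂ :=
      Ideal.Quotient.lift (RingHom.ker φ)
        (aeval (ep c w) : MvPolynomial N Qb →ₐ[Qb] DualNumber ℂ).toRingHom (fun p hp => h p hp)
    have hθ : ∀ a, (θ a).fst = g a := by
      intro a
      obtain ⟨p, rfl⟩ := Ideal.Quotient.mk_surjective a
      exact fst_aeval_ep c w p
    obtain ⟨D, hD⟩ := ext_der (A := MvPolynomial N Qb ⧸ RingHom.ker φ) g hg θ hθ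
    refine ⟨D, fun n => ?_⟩
    have h1 := hD (Ideal.Quotient.mk _ (X n))
    have h2 : g (Ideal.Quotient.mk _ (X n)) = c n := by
      change (aeval c : MvPolynomial N Qb →ₐ[Qb] ℂ) (X n) = c n
      rw [aeval_X]
    have h3 : θ (Ideal.Quotient.mk _ (X n)) = ep c w n := by
      change (aeval (ep c w) : MvPolynomial N Qb →ₐ[Qb] DualNumber ℂ) (X n) = _
      rw [aeval_X]
    rw [h2, h3] at h1
    rw [h1]
    simp [ep]

/-- The derivative of a polynomial. -/
theorem snd_aeval_ep (z w : N → ℂ) (p : MvPolynomial N Qb) :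
    (aeval (ep z w) p).snd = ∑ n, aeval z (pderiv n p) * w n := by
  induction p using MvPolynomial.induction_on with
  | C a =>
    rw [algHom_C]
    simp only [pderiv_C, map_zero, zero_mul, Finset.sum_const_zero]
    rfl
  | add p q hp hq =>
    rw [map_add, TrivSqZeroExt.snd_add, hp, hq, ← Finset.sum_add_distrib]
    refine Finset.sum_congr rfl fun n _ => ?_
    rw [map_add, map_add, add_mul]
  | mul_X p i hp =>
    rw [map_mul, TrivSqZeroExt.snd_mul, hp, fst_aeval_ep, aeval_X]
    have h1 : (ep z w i).snd = w i := by simp [ep]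
    have h2 : (ep z w i).fst = z i := by simp [ep]
    rw [h1, h2]
    have h3 : ∀ n, aeval z (pderiv n (p * X i)) * w n =
        z i * (aeval z (pderiv n p) * w n) + if n = i then aeval z p * w n else 0 := by
      intro n
      rw [Derivation.leibniz, map_add, smul_eq_mul, smul_eq_mul, map_mul, map_mul, aeval_X,
        pderiv_X, add_mul]
      by_cases hni : n = i
      · subst hni
        rw [Pi.single_eq_same, map_one, if_pos rfl]
        ring
      · rw [Pi.single_eq_of_ne (fun h => hni h.symm), map_zero, if_neg hni]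
        ring
    rw [Finset.sum_congr rfl fun n _ => h3 n, Finset.sum_add_distrib, ← Finset.mul_sum,
      Finset.sum_ite_eq', if_pos (Finset.mem_univ i)]
    simp only [smul_eq_mul, MulOpposite.smul_eq_mul_unop, MulOpposite.unop_op]
    ring

/-- Decomposition of a complex polynomial which vanishes at all algebraic points of the closure of
`c` where `d` does not vanish. -/
theorem null (c : N → ℂ) (d : MvPolynomial N Qb) (hd : aeval c d ≠ 0) (f : MvPolynomial N ℂ)
    (hf : ∀ z : N → Qb, (fun n => ((z n : Qb) : ℂ)) ∈ clos c →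
      aeval (fun n => ((z n : Qb) : ℂ)) d ≠ 0 → eval (fun n => ((z n : Qb) : ℂ)) f = 0) :
    ∃ (J : Type) (s : Finset J) (b : J → ℂ) (g : J → MvPolynomial N Qb),
      (∀ j ∈ s, aeval c (g j) = 0) ∧ f = ∑ j ∈ s, C (b j) * map (algebraMap Qb ℂ) (g j) := by
  classical
  let β := Module.Basis.ofVectorSpace Qb ℂ
  let s : Finset (Module.Basis.ofVectorSpaceIndex Qb ℂ) :=
    f.support.biUnion fun α => (β.repr (coeff α f)).support
  let g : Module.Basis.ofVectorSpaceIndex Qb ℂ → MvPolynomial N Qb := fun j =>
    ∑ α ∈ f.support, monomial α (β.repr (coeff α f) j)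
  have hco : ∀ α ∈ f.support,
      coeff α f = ∑ j ∈ s, β j * algebraMap Qb ℂ (β.repr (coeff α f) j) := by
    intro α hα
    have h1 := β.linearCombination_repr (coeff α f)
    rw [Finsupp.linearCombination_apply] at h1
    conv_lhs => rw [← h1]
    rw [Finsupp.sum_of_support_subset (s := s)]
    · refine Finset.sum_congr rfl fun j _ => ?_
      rw [Algebra.smul_def, mul_comm]
    · exact Finset.subset_biUnion_of_mem (fun α => (β.repr (coeff α f)).support) hα
    · intro j _
      exact zero_smul _ _
  have hfg : f = ∑ j ∈ s, C (β j) * map (algebraMap Qb ℂ) (g j) := by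
    have h1 : ∀ j, C (β j) * map (algebraMap Qb ℂ) (g j) =
        ∑ α ∈ f.support, monomial α (β j * algebraMap Qb ℂ (β.repr (coeff α f) j)) := by
      intro j
      rw [map_sum, Finset.mul_sum]
      refine Finset.sum_congr rfl fun α _ => ?_
      rw [map_monomial, C_mul_monomial]
    rw [Finset.sum_congr rfl fun j _ => h1 j, Finset.sum_comm]
    conv_lhs => rw [← support_sum_monomial_coeff f]
    refine Finset.sum_congr rfl fun α hα => ?_
    conv_lhs => rw [hco α hα]
    rw [map_sum]
  refine ⟨_, s, β, g, fun j hj => ?_, hfg⟩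
  -- the components vanish at the algebraic points
  have hz : ∀ z : N → Qb, (fun n => ((z n : Qb) : ℂ)) ∈ clos c →
      aeval (fun n => ((z n : Qb) : ℂ)) d ≠ 0 → aeval z (g j) = 0 := by
    intro z hz hdz
    have h1 := hf z hz hdz
    rw [hfg, map_sum] at h1
    have h2 : ∀ j, eval (fun n => ((z n : Qb) : ℂ)) (C (β j) * map (algebraMap Qb ℂ) (g j)) =
        (aeval z (g j) : Qb) • β j := by
      intro j
      rw [map_mul, eval_C, eval_map, Algebra.smul_def, mul_comm]
      congr 1
      rw [← aeval_def]
      exact aeval_algebraMap_apply ℂ z (g j)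
    rw [Finset.sum_congr rfl fun j _ => h2 j] at h1
    exact linearIndependent_iff'.1 β.linearIndependent s (fun j => aeval z (g j)) h1 j hj
  -- Nullstellensatz
  have hp : (RingHom.ker (aeval c : MvPolynomial N Qb →ₐ[Qb] ℂ)).IsPrime := RingHom.ker_isPrime _
  have h3 : g j * d ∈ vanishingIdeal Qb
      (zeroLocus Qb (RingHom.ker (aeval c : MvPolynomial N Qb →ₐ[Qb] ℂ))) := by
    intro z hzz
    rw [map_mul]
    by_cases hdz : aeval z d = 0
    · rw [hdz, mul_zero]
    · rw [hz z ?_ ?_, zero_mul]
      · intro p hpc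
        have h4 := hzz p hpc
        have h5 := aeval_algebraMap_apply ℂ z p
        rw [h4, map_zero] at h5
        exact h5
      · intro h6
        have h5 := aeval_algebraMap_apply ℂ z d
        apply hdz
        apply (algebraMap Qb ℂ).injective
        rw [map_zero, ← h5]
        exact h6
  rw [IsPrime.vanishingIdeal_zeroLocus] at h3
  have h7 : aeval c (g j * d) = 0 := h3
  rw [map_mul] at h7
  exact (mul_eq_zero.1 h7).resolve_right hd

/-- A complex polynomial which vanishes at all algebraic points of the closure of `c` where `d` does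
not vanish, vanishes at all points. -/
theorem null_pts (c : N → ℂ) (d : MvPolynomial N Qb) (hd : aeval c d ≠ 0) (f : MvPolynomial N ℂ)
    (hf : ∀ z : N → Qb, (fun n => ((z n : Qb) : ℂ)) ∈ clos c →
      aeval (fun n => ((z n : Qb) : ℂ)) d ≠ 0 → eval (fun n => ((z n : Qb) : ℂ)) f = 0)
    (B : Type) [CommRing B] [Algebra ℂ B] [Algebra Qb B]
    (hB : ∀ a : Qb, algebraMap Qb B a = algebraMap ℂ B (algebraMap Qb ℂ a)) {z : N → B}
    (hz : z ∈ pts c B) : aeval z f = 0 := by
  obtain ⟨J, s, b, g, hg, rfl⟩ := null c d hd f hf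
  rw [map_sum]
  refine Finset.sum_eq_zero fun j hj => ?_
  have h1 : aeval z (map (algebraMap Qb ℂ) (g j)) = aeval z (g j) := by
    rw [aeval_def, aeval_def, eval₂_map]
    congr 1
    exact RingHom.ext fun a => (hB a).symm
  rw [map_mul, h1, hz _ (hg j hj), mul_zero]

/-- There is an algebraic point of the closure of `c` where `d` does not vanish. -/
theorem exists_alg_point (c : N → ℂ) (d : MvPolynomial N Qb) (hd : aeval c d ≠ 0) :
    ∃ z : N → Qb, (fun n => ((z n : Qb) : ℂ)) ∈ clos c ∧
      aeval (fun n => ((z n : Qb) : ℂ)) d ≠ 0 := by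
  by_contra h
  push Not at h
  have h1 := null_pts c d hd 1 (fun z hz hdz => absurd (h z hz) hdz) ℂ (fun _ => rfl)
    (self_mem c)
  rw [map_one] at h1
  exact one_ne_zero h1

end

end Pool.Agent.W537.TT
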