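import Pool.Agent.W537.TT.Tors2
import Pool.Agent.W537.KT.Final

/-!
# Semisimplicity of the de Rham-Betti realization, if the logarithmic derivatives are all elements of
# the Lie algebra of the Hodge group
-/

set_option linter.unusedSectionVars false

namespace Pool.Agent.W537.TT

open Pool.Agent.W537.DB Pool.Agent.W537.KT Matrix

noncomputable section

variable {ι : Type} [Fintype ι] [DecidableEq ι]

theorem derR_mul {a b c : Type} [Fintype b] (D : Derivation ℤ ℂ ℂ) (M : Matrix a b ℂ)
    (N : Matrix b c ℂ) : (M * N).map D = M.map D * N + M * N.map D := by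
  ext i j
  rw [Matrix.map_apply, Matrix.mul_apply, map_sum, Matrix.add_apply, Matrix.mul_apply,
    Matrix.mul_apply, ← Finset.sum_add_distrib]
  refine Finset.sum_congr rfl fun k _ => ?_
  rw [Derivation.leibniz, Matrix.map_apply, Matrix.map_apply, smul_eq_mul, smul_eq_mul]
  ring

theorem derR_smul {a b : Type} (D : Derivation ℤ ℂ ℂ) (c : ℂ) (M : Matrix a b ℂ) :
    (c • M).map D = D c • M + c • M.map D := by
  ext i j
  rw [Matrix.map_apply, Matrix.smul_apply, smul_eq_mul, Derivation.leibniz, Matrix.add_apply,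
    Matrix.smul_apply, Matrix.smul_apply, Matrix.map_apply]
  simp only [smul_eq_mul]
  ring

theorem derR_toC (D : Derivation ℤ ℂ ℂ) (P : Matrix ι ι ℚ) : (toC P).map D = 0 := by
  ext i j
  exact der_rat D (P i j)

variable {T : K3Motive ι} {P : Matrix ι ι ℚ} {m : ℕ}

/-- The eigenvalues are algebraic numbers. -/
theorem der_eig (hP : T.RealMultiplication P) (d : Dec T.QC (toC P) m) (hm : 2 < m) (s : d.R)
    (D : Derivation ℤ ℂ ℂ) : D (d.c s) = 0 := by
  have h1 : (toC P * d.B s).map D = (d.c s • d.B s).map D := by rw [d.eig]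
  rw [derR_mul, derR_toC, Matrix.zero_mul, zero_add, derR_smul] at h1
  have h2 := congrArg (fun M => (d.B s).transpose * T.QC * M) h1
  change (d.B s).transpose * T.QC * (toC P * (d.B s).map D) =
    (d.B s).transpose * T.QC * (D (d.c s) • d.B s + d.c s • (d.B s).map D) at h2
  rw [← Matrix.mul_assoc, d.BQ_P hP.toC, Matrix.mul_add, Matrix.mul_smul, Matrix.mul_smul, d.orth,
    Matrix.smul_mul] at h2
  have h3 : D (d.c s) • (1 : Matrix (Fin m) (Fin m) ℂ) = 0 := by
    have h4 := h2.symm
    rwa [add_eq_right] at h4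
  have h5 := congrFun (congrFun h3 ⟨0, by omega⟩) ⟨0, by omega⟩
  rw [Matrix.smul_apply, Matrix.one_apply_eq, smul_eq_mul, mul_one] at h5
  exact h5

/-- The projectors onto the eigenspaces have algebraic entries. -/
theorem der_proj (hP : T.RealMultiplication P) (d : Dec T.QC (toC P) m) (hm : 2 < m) (s : d.R)
    (D : Derivation ℤ ℂ ℂ) : (d.phi s 1).map D = 0 := by
  let _ : Fintype d.R := d.fin
  have hπ : ∀ s, d.phi s 1 = d.B s * ((d.B s).transpose * T.QC) := by
    intro s
    unfold Dec.phi
    rw [Matrix.mul_one]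
  have hleft : ∀ s, d.phi s 1 * toC P = d.c s • d.phi s 1 := by
    intro s
    rw [hπ, Matrix.mul_assoc, d.BQ_P hP.toC, Matrix.mul_smul]
  have hright : ∀ t, toC P * d.phi t 1 = d.c t • d.phi t 1 := by
    intro t
    rw [hπ, ← Matrix.mul_assoc, d.eig, Matrix.smul_mul]
  have hE : ∀ t, toC P * (d.phi t 1).map D = d.c t • (d.phi t 1).map D := by
    intro t
    have h1 : (toC P * d.phi t 1).map D = (d.c t • d.phi t 1).map D := by rw [hright]
    rwa [derR_mul, derR_toC, Matrix.zero_mul, zero_add, derR_smul, der_eig hP d hm t D, zero_smul,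
      zero_add] at h1
  have hst : ∀ s t, s ≠ t → d.phi s 1 * (d.phi t 1).map D = 0 := by
    intro s t hst
    have h1 : d.c s • (d.phi s 1 * (d.phi t 1).map D) = d.c t • (d.phi s 1 * (d.phi t 1).map D) := by
      rw [← Matrix.smul_mul, ← hleft, Matrix.mul_assoc, hE, Matrix.mul_smul]
    have h2 : (d.c s - d.c t) • (d.phi s 1 * (d.phi t 1).map D) = 0 := by
      rw [sub_smul, h1, sub_self]
    exact (smul_eq_zero.1 h2).resolve_left (sub_ne_zero.2 fun h => hst (d.c_inj h))
  have hone : ∑ t, d.phi t 1 = 1 := by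
    simp only [hπ]
    exact d.compl
  have hsum : ∑ t, (d.phi t 1).map D = 0 := by
    have h1 := congrArg (fun M : Matrix ι ι ℂ => M.map D) hone
    change (∑ t, d.phi t 1).map D = (1 : Matrix ι ι ℂ).map D at h1
    rw [der_one] at h1
    rw [← h1]
    ext i j
    rw [Matrix.sum_apply, Matrix.map_apply, Matrix.sum_apply, map_sum]
    rfl
  have h1 : ∀ t, d.phi t 1 * (d.phi t 1).map D = (d.phi t 1).map D := by
    intro t
    conv_rhs => rw [← Matrix.one_mul ((d.phi t 1).map D), ← hone, Matrix.sum_mul]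
    rw [Finset.sum_eq_single t]
    · intro u _ hu
      exact hst u t hu
    · intro h
      exact absurd (Finset.mem_univ _) h
  have h2 := congrArg (fun M => d.phi s 1 * M) hsum
  change d.phi s 1 * ∑ t, (d.phi t 1).map D = d.phi s 1 * 0 at h2
  rw [Matrix.mul_zero, Matrix.mul_sum, Finset.sum_eq_single s] at h2
  · rw [← h1, h2]
  · intro u _ hu
    exact hst s u hu.symm
  · intro h
    exact absurd (Finset.mem_univ _) h

/-- A nonzero subspace of `ℂ ^ m` stable under the skew matrices is everything. -/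
theorem so_irred (hm : 2 < m) (V : Submodule ℂ (Fin m → ℂ))
    (hV : ∀ z : Matrix (Fin m) (Fin m) ℂ, z.transpose = -z → ∀ v ∈ V, z *ᵥ v ∈ V)
    {a : Fin m → ℂ} (ha : a ∈ V) (h0 : a ≠ 0) : ∀ v, v ∈ V := by
  let E : Fin m → Fin m → Matrix (Fin m) (Fin m) ℂ := fun i j =>
    Matrix.single i j 1 - Matrix.single j i 1
  have hE : ∀ i j, (E i j).transpose = -E i j := by
    intro i j
    simp only [E, Matrix.transpose_sub, Matrix.transpose_single, neg_sub]
  have hEv : ∀ i j (v : Fin m → ℂ), E i j *ᵥ v = Pi.single i (v j) - Pi.single j (v i) := by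
    intro i j v
    simp only [E, Matrix.sub_mulVec, Matrix.single_mulVec, one_mul]
    rfl
  obtain ⟨k, hk⟩ : ∃ k, a k ≠ 0 := by
    by_contra h
    push Not at h
    exact h0 (funext h)
  have hcard : ∀ i j : Fin m, ∃ l, l ≠ i ∧ l ≠ j := by
    intro i j
    by_contra h
    push Not at h
    have h1 : (Finset.univ : Finset (Fin m)) ⊆ {i, j} := by
      intro l _
      by_cases hl : l = i
      · simp [hl]
      · simp [h l hl]
    have h2 := Finset.card_le_card h1
    rw [Finset.card_univ, Fintype.card_fin] at h2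
    have h3 := Finset.card_le_two (a := i) (b := j)
    omega
  -- the basis vectors different from `k`
  have h1 : ∀ l, l ≠ k → (Pi.single l 1 : Fin m → ℂ) ∈ V := by
    intro l hl
    obtain ⟨j, hjl, hjk⟩ := hcard l k
    have h2 := hV _ (hE j k) a ha
    rw [hEv] at h2
    have h3 := hV _ (hE l j) _ h2
    rw [hEv] at h3
    have e1 : (Pi.single j (a k) - Pi.single k (a j) : Fin m → ℂ) j = a k := by
      simp [hjk]
    have e2 : (Pi.single j (a k) - Pi.single k (a j) : Fin m → ℂ) l = 0 := by
      simp [hjl.symm, hl]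
    rw [e1, e2, Pi.single_zero, sub_zero] at h3
    have h4 := V.smul_mem (a k)⁻¹ h3
    have e3 : (a k)⁻¹ • (Pi.single l (a k) : Fin m → ℂ) = Pi.single l 1 := by
      rw [← Pi.single_smul, smul_eq_mul, inv_mul_cancel₀ hk]
    rwa [e3] at h4
  have h2 : (Pi.single k 1 : Fin m → ℂ) ∈ V := by
    obtain ⟨l, hl, _⟩ := hcard k k
    have h3 := hV _ (hE k l) _ (h1 l hl)
    rw [hEv] at h3
    simpa [hl.symm] using h3
  intro v
  have h3 : v = ∑ i, v i • (Pi.single i 1 : Fin m → ℂ) := by
    funext j
    rw [Finset.sum_apply]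
    simp [Pi.single_apply]
  rw [h3]
  refine V.sum_mem fun i _ => V.smul_mem _ ?_
  by_cases hi : i = k
  · rw [hi]
    exact h2
  · exact h1 i hi

/-- If the logarithmic derivatives of the period matrix are all elements of `hd`, the de Rham-Betti
realization is semisimple. -/
theorem semisimple_of (hP : T.RealMultiplication P) (d : Dec T.QC (toC P) m) (hm : 2 < m)
    (hall : ∀ x ∈ T.hd, ∃ D, T.X D = x) (hXd : ∀ D, T.X D ∈ T.hd) : T.Semisimple Qb := by
  classical
  let _ : Fintype d.R := d.fin
  intro U hU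
  -- `U` is stable under the derivations
  have hD : ∀ (D : Derivation ℤ ℂ ℂ), ∀ v ∈ U, (fun i => D (v i)) ∈ U := by
    intro D v hv
    have h1 := hU.1 hv
    induction h1 using Submodule.span_induction with
    | mem u hu =>
      have h2 : (fun i => D (u i)) = 0 := by
        funext i
        exact der_Qb D ⟨u i, hu.2 i⟩
      rw [h2]
      exact U.zero_mem
    | zero =>
      have h2 : (fun i => D ((0 : ι → ℂ) i)) = 0 := by
        funext i
        exact map_zero D
      rw [h2]
      exact U.zero_mem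
    | add u w hu hw ihu ihw =>
      have e1 : u ∈ U := (Submodule.span_le.2 (fun z hz => hz.1)) hu
      have e2 : w ∈ U := (Submodule.span_le.2 (fun z hz => hz.1)) hw
      have h2 : (fun i => D ((u + w) i)) = (fun i => D (u i)) + fun i => D (w i) := by
        funext i
        exact map_add D _ _
      rw [h2]
      exact U.add_mem (ihu e1) (ihw e2)
    | smul a u hu ihu =>
      have e1 : u ∈ U := (Submodule.span_le.2 (fun z hz => hz.1)) hu
      have h2 : (fun i => D ((a • u) i)) = a • (fun i => D (u i)) + D a • u := by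
        funext i
        rw [Pi.smul_apply, smul_eq_mul, Derivation.leibniz, Pi.add_apply, Pi.smul_apply,
          Pi.smul_apply]
        simp only [smul_eq_mul]
        rw [mul_comm (u i)]
      rw [h2]
      exact U.add_mem (U.smul_mem _ (ihu e1)) (U.smul_mem _ e1)
  -- `U` is stable under the logarithmic derivatives
  have hX : ∀ (D : Derivation ℤ ℂ ℂ), ∀ v ∈ U, T.X D *ᵥ v ∈ U := by
    intro D v hv
    have h1 := hU.2 hv
    induction h1 using Submodule.span_induction with
    | mem u hu =>
      have h2 : T.X D *ᵥ u = -(fun i => D (u i)) := by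
        have h3 : (fun i => D ((T.C *ᵥ u) i)) = 0 := by
          funext i
          exact der_alg D (hu.2 i)
        have h4 : (fun i => D ((T.C *ᵥ u) i)) = T.C.map D *ᵥ u + T.C *ᵥ fun i => D (u i) := by
          funext i
          rw [Pi.add_apply]
          change D (∑ j, T.C i j * u j) = ∑ j, D (T.C i j) * u j + ∑ j, T.C i j * D (u j)
          rw [map_sum, ← Finset.sum_add_distrib]
          refine Finset.sum_congr rfl fun j _ => ?_
          rw [Derivation.leibniz, smul_eq_mul, smul_eq_mul]
          ring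
        rw [h3, T.der_C] at h4
        have h5 := congrArg (fun w => T.C⁻¹ *ᵥ w) h4
        change T.C⁻¹ *ᵥ 0 = T.C⁻¹ *ᵥ ((T.C * T.X D) *ᵥ u + T.C *ᵥ fun i => D (u i)) at h5
        rw [Matrix.mulVec_zero, Matrix.mulVec_add, Matrix.mulVec_mulVec, Matrix.mulVec_mulVec,
          ← Matrix.mul_assoc, T.inv_mul, Matrix.one_mul, Matrix.one_mulVec] at h5
        exact eq_neg_of_add_eq_zero_left h5.symm
      rw [h2]
      exact U.neg_mem (hD D u hu.1)
    | zero =>
      rw [Matrix.mulVec_zero]
      exact U.zero_mem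
    | add u w hu hw ihu ihw =>
      have e1 : u ∈ U := (Submodule.span_le.2 (fun z hz => hz.1)) hu
      have e2 : w ∈ U := (Submodule.span_le.2 (fun z hz => hz.1)) hw
      rw [Matrix.mulVec_add]
      exact U.add_mem (ihu e1) (ihw e2)
    | smul a u hu ihu =>
      have e1 : u ∈ U := (Submodule.span_le.2 (fun z hz => hz.1)) hu
      rw [Matrix.mulVec_smul]
      exact U.smul_mem _ (ihu e1)
  have hhd : ∀ x ∈ T.hd, ∀ v ∈ U, x *ᵥ v ∈ U := by
    intro x hx v hv
    obtain ⟨D, rfl⟩ := hall x hx
    exact hX D v hv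
  -- the components of `U`
  let S : Finset d.R := Finset.univ.filter fun s => ∃ u ∈ U, ((d.B s).transpose * T.QC) *ᵥ u ≠ 0
  have hS : ∀ s ∈ S, ∀ b : Fin m → ℂ, d.B s *ᵥ b ∈ U := by
    intro s hs b
    obtain ⟨u, hu, hu0⟩ := (Finset.mem_filter.1 hs).2
    let V : Submodule ℂ (Fin m → ℂ) := U.comap (Matrix.toLin' (d.B s))
    have hmemV : ∀ b, b ∈ V ↔ d.B s *ᵥ b ∈ U := by
      intro b
      rw [Submodule.mem_comap, Matrix.toLin'_apply]
    have hstab : ∀ z : Matrix (Fin m) (Fin m) ℂ, z.transpose = -z →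
        z *ᵥ (((d.B s).transpose * T.QC) *ᵥ u) ∈ V := by
      intro z hz
      rw [hmemV]
      have h1 := hhd _ (T.phi_mem hP d s hz) u hu
      unfold Dec.phi at h1
      rw [← Matrix.mulVec_mulVec, ← Matrix.mulVec_mulVec] at h1
      exact h1
    have hVst : ∀ z : Matrix (Fin m) (Fin m) ℂ, z.transpose = -z → ∀ v ∈ V, z *ᵥ v ∈ V := by
      intro z hz v hv
      rw [hmemV] at hv ⊢
      have h1 := hhd _ (T.phi_mem hP d s hz) _ hv
      unfold Dec.phi at h1
      rw [← Matrix.mulVec_mulVec, Matrix.mulVec_mulVec v, d.orth, Matrix.one_mulVec,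
        ← Matrix.mulVec_mulVec] at h1
      exact h1
    -- some image under a skew matrix is not zero
    have hne : ∃ z : Matrix (Fin m) (Fin m) ℂ, z.transpose = -z ∧
        z *ᵥ (((d.B s).transpose * T.QC) *ᵥ u) ≠ 0 := by
      set a := ((d.B s).transpose * T.QC) *ᵥ u with ha
      obtain ⟨k, hk⟩ : ∃ k, a k ≠ 0 := by
        by_contra h
        push Not at h
        exact hu0 (funext h)
      obtain ⟨j, hj⟩ : ∃ j : Fin m, j ≠ k := by
        by_cases h : (⟨0, by omega⟩ : Fin m) = k
        · exact ⟨⟨1, by omega⟩, fun h' => by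
            have := h.trans h'.symm
            simp at this⟩
        · exact ⟨_, h⟩
      refine ⟨Matrix.single j k 1 - Matrix.single k j 1, ?_, ?_⟩
      · simp only [Matrix.transpose_sub, Matrix.transpose_single, neg_sub]
      · intro h0
        have h1 := congrFun h0 j
        rw [Matrix.sub_mulVec, Matrix.single_mulVec, Matrix.single_mulVec] at h1
        apply hk
        simpa [hj] using h1
    obtain ⟨z, hz, hz0⟩ := hne
    exact (hmemV b).1 (so_irred hm V hVst (hstab z hz) hz0 b)
  let p : Matrix ι ι ℂ := ∑ s ∈ S, d.phi s 1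
  have hpD : ∀ D : Derivation ℤ ℂ ℂ, p.map D = 0 := by
    intro D
    change (∑ s ∈ S, d.phi s 1).map D = 0
    ext i j
    rw [Matrix.map_apply, Matrix.sum_apply, map_sum, Matrix.zero_apply]
    refine Finset.sum_eq_zero fun s _ => ?_
    exact congrFun (congrFun (der_proj hP d hm s D) i) j
  have hpc : ∀ x ∈ T.hd, x * p = p * x := by
    intro x hx
    change x * ∑ s ∈ S, d.phi s 1 = (∑ s ∈ S, d.phi s 1) * x
    rw [Matrix.mul_sum, Matrix.sum_mul]
    refine Finset.sum_congr rfl fun s _ => ?_
    unfold Dec.phi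
    rw [Matrix.mul_one, ← Matrix.mul_assoc, d.mul_B hP.toC (hd_comm hP hx), Matrix.mul_assoc,
      Matrix.mul_assoc (d.B s), d.BQ_mul hP.toC (hd_comm hP hx)]
  refine ⟨p, fun i j => ?_, fun i j => ?_, fun u hu => ?_, fun v => ?_⟩
  · rw [mem_algebraicClosure_iff]
    exact alg_of_der fun D => congrFun (congrFun (hpD D) i) j
  · apply alg_of_der
    intro D
    have h1 : (T.C * p * T.C⁻¹).map D = 0 := by
      rw [DB.der_mul, DB.der_mul, hpD, Matrix.mul_zero, add_zero, T.der_C, T.der_inv]
      rw [Matrix.mul_neg, ← Matrix.mul_assoc, Matrix.mul_assoc T.C p (T.X D),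
        ← hpc _ (hXd D), Matrix.mul_assoc T.C (T.X D) p, add_neg_cancel]
    exact congrFun (congrFun h1 i) j
  · -- `p` is the identity on `U`
    have h1 : (∑ s, d.phi s 1) *ᵥ u = u := by
      have h2 : ∑ s, d.phi s 1 = 1 := by
        unfold Dec.phi
        simp only [Matrix.mul_one]
        exact d.compl
      rw [h2, Matrix.one_mulVec]
    conv_rhs => rw [← h1]
    change (∑ s ∈ S, d.phi s 1) *ᵥ u = _
    rw [Matrix.sum_mulVec, Matrix.sum_mulVec]
    refine Finset.sum_subset (Finset.subset_univ S) fun s _ hs => ?_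
    have h3 : ((d.B s).transpose * T.QC) *ᵥ u = 0 := by
      by_contra h
      exact hs (Finset.mem_filter.2 ⟨Finset.mem_univ s, u, hu, h⟩)
    unfold Dec.phi
    rw [Matrix.mul_one, ← Matrix.mulVec_mulVec, h3, Matrix.mulVec_zero]
  · change (∑ s ∈ S, d.phi s 1) *ᵥ v ∈ U
    rw [Matrix.sum_mulVec]
    refine U.sum_mem fun s hs => ?_
    unfold Dec.phi
    rw [Matrix.mul_one, ← Matrix.mulVec_mulVec]
    exact hS s hs _

end

end Pool.Agent.W537.TT
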