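import Pool.Agent.W537.TT.Cmp
import Pool.Agent.W537.DB.Rat

/-!
# The closure of an invertible matrix is a torsor if and only if its logarithmic derivatives are
# defined over the algebraic numbers
-/

set_option linter.unusedSectionVars false

namespace Pool.Agent.W537.TT

open Pool.Agent.W537.DB MvPolynomial

noncomputable section

variable {ι : Type} [Fintype ι] [DecidableEq ι]

/-- The family of the entries of a matrix. -/
def vc {B : Type} (M : Matrix ι ι B) : ι × ι → B := fun q => M q.1 q.2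

theorem vc_inj {B : Type} {M M' : Matrix ι ι B} (h : vc M = vc M') : M = M' := by
  ext i j
  exact congrFun h (i, j)

/-- The matrix of the variables. -/
def gm (B : Type) [CommRing B] : Matrix ι ι (MvPolynomial (ι × ι) B) :=
  Matrix.of fun i j => X (i, j)

/-- The set of the invertible matrices in the closure of `C` is a torsor. -/
def IsTorsor (C : Matrix ι ι ℂ) : Prop :=
  ∀ x y z : Matrix ι ι ℂ, IsUnit x → IsUnit y → IsUnit z →
    vc x ∈ clos (vc C) → vc y ∈ clos (vc C) → vc z ∈ clos (vc C) →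
    vc (x * y⁻¹ * z) ∈ clos (vc C)

theorem der_mul' (D : Derivation ℤ ℂ ℂ) (A B : Matrix ι ι ℂ) :
    (A * B).map D = A.map D * B + A * B.map D := by
  ext i j
  rw [Matrix.map_apply, Matrix.mul_apply, map_sum, Matrix.add_apply, Matrix.mul_apply,
    Matrix.mul_apply, ← Finset.sum_add_distrib]
  refine Finset.sum_congr rfl fun k _ => ?_
  rw [Derivation.leibniz, Matrix.map_apply, Matrix.map_apply, smul_eq_mul, smul_eq_mul]
  ring

/-- The space of the logarithmic derivatives of an invertible matrix. -/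
def logSpace (C : Matrix ι ι ℂ) : Submodule ℂ (Matrix ι ι ℂ) where
  carrier := {y | ∃ D : Derivation ℤ ℂ ℂ, y = C⁻¹ * C.map D}
  zero_mem' := ⟨0, by
    have h1 : C.map (0 : Derivation ℤ ℂ ℂ) = 0 := by
      ext i j
      rfl
    rw [h1, Matrix.mul_zero]⟩
  add_mem' := by
    rintro _ _ ⟨D, rfl⟩ ⟨E, rfl⟩
    refine ⟨D + E, ?_⟩
    rw [← Matrix.mul_add]
    congr 1
  smul_mem' := by
    rintro a _ ⟨D, rfl⟩
    refine ⟨a • D, ?_⟩
    rw [← Matrix.mul_smul]
    congr 1

/-- A space of matrices is spanned by matrices with algebraic entries. -/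
def AlgSpan (L : Submodule ℂ (Matrix ι ι ℂ)) : Prop :=
  ∀ y ∈ L, y ∈ Submodule.span ℂ {y | y ∈ L ∧ ∀ i j, y i j ∈ Qb}

theorem det_ne {C : Matrix ι ι ℂ} (hC : IsUnit C) : C.det ≠ 0 :=
  ((Matrix.isUnit_iff_isUnit_det _).1 hC).ne_zero

theorem inv_mul' {C : Matrix ι ι ℂ} (hC : IsUnit C) : C⁻¹ * C = 1 :=
  Matrix.nonsing_inv_mul _ ((Matrix.isUnit_iff_isUnit_det _).1 hC)

theorem mul_inv' {C : Matrix ι ι ℂ} (hC : IsUnit C) : C * C⁻¹ = 1 :=
  Matrix.mul_nonsing_inv _ ((Matrix.isUnit_iff_isUnit_det _).1 hC)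

theorem mem_logSpace {C : Matrix ι ι ℂ} (hC : IsUnit C) (y : Matrix ι ι ℂ) :
    y ∈ logSpace C ↔ vc (C * y) ∈ derSpace (vc C) := by
  constructor
  · rintro ⟨D, rfl⟩
    refine ⟨D, fun n => ?_⟩
    rw [← Matrix.mul_assoc, mul_inv' hC, Matrix.one_mul]
    rfl
  · rintro ⟨D, hD⟩
    refine ⟨D, ?_⟩
    have h1 : C.map D = C * y := by
      ext i j
      exact hD (i, j)
    rw [h1, ← Matrix.mul_assoc, inv_mul' hC, Matrix.one_mul]

/-- The dimension of the space of the logarithmic derivatives. -/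
theorem finrank_logSpace {C : Matrix ι ι ℂ} (hC : IsUnit C) :
    Module.finrank ℂ (logSpace C) = Module.finrank ℂ (derSpace (vc C)) := by
  let e : logSpace C ≃ₗ[ℂ] derSpace (vc C) :=
    { toFun := fun y => ⟨vc (C * y.1), (mem_logSpace hC y.1).1 y.2⟩
      invFun := fun w => ⟨C⁻¹ * Matrix.of fun i j => w.1 (i, j), by
        rw [mem_logSpace hC, ← Matrix.mul_assoc, mul_inv' hC, Matrix.one_mul]
        exact w.2⟩
      left_inv := by
        rintro ⟨y, hy⟩
        apply Subtype.ext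
        change C⁻¹ * (C * y) = y
        rw [← Matrix.mul_assoc, inv_mul' hC, Matrix.one_mul]
      right_inv := by
        rintro ⟨w, hw⟩
        apply Subtype.ext
        change vc (C * (C⁻¹ * Matrix.of fun i j => w (i, j))) = w
        rw [← Matrix.mul_assoc, mul_inv' hC, Matrix.one_mul]
        rfl
      map_add' := by
        intro x y
        apply Subtype.ext
        change vc (C * (x.1 + y.1)) = vc (C * x.1) + vc (C * y.1)
        rw [Matrix.mul_add]
        rfl
      map_smul' := by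
        intro a x
        apply Subtype.ext
        change vc (C * (a • x.1)) = a • vc (C * x.1)
        rw [Matrix.mul_smul]
        rfl }
  exact e.finrank_eq

/-- The transcendence degree of the field generated by the entries. -/
theorem trdeg_log {C : Matrix ι ι ℂ} (hC : IsUnit C) :
    Algebra.trdeg ℚ (fld (vc C)) = (Module.finrank ℂ (logSpace C) : Cardinal) := by
  rw [trdeg_eq, finrank_logSpace hC]

/-! ### Substitutions -/

theorem aeval_subst {N N' : Type} {B : Type} [CommRing B] [Algebra ℂ B] [Algebra Qb B]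
    (hB : ∀ a : Qb, algebraMap Qb B a = algebraMap ℂ B (algebraMap Qb ℂ a))
    (M : N → MvPolynomial N' ℂ) (p : MvPolynomial N Qb) (z : N' → B) :
    aeval z (aeval M p : MvPolynomial N' ℂ) = aeval (fun n => aeval z (M n)) p := by
  let φ : MvPolynomial N' ℂ →ₐ[Qb] B :=
    { (aeval z : MvPolynomial N' ℂ →ₐ[ℂ] B).toRingHom with
      commutes' := by
        intro a
        change aeval z (C (algebraMap Qb ℂ a)) = _
        rw [algHom_C, hB] }
  exact comp_aeval_apply M φ p

theorem aeval_det {B : Type} [CommRing B] [Algebra Qb B] (z : Matrix ι ι B) :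
    aeval (vc z) (gm Qb : Matrix ι ι (MvPolynomial (ι × ι) Qb)).det = z.det := by
  rw [AlgHom.map_det]
  congr 1
  ext i j
  rw [AlgHom.mapMatrix_apply, Matrix.map_apply]
  change aeval (vc z) (X (i, j)) = _
  rw [aeval_X]
  rfl

/-- A matrix which maps the algebraic invertible points of the closure to points of the closure
maps all points to points. -/
theorem mulLeft {C : Matrix ι ι ℂ} (hC : IsUnit C) {h : Matrix ι ι ℂ}
    (hh : ∀ z : Matrix ι ι Qb, vc (z.map (algebraMap Qb ℂ)) ∈ clos (vc C) →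
      IsUnit (z.map (algebraMap Qb ℂ)) → vc (h * z.map (algebraMap Qb ℂ)) ∈ clos (vc C))
    (B : Type) [CommRing B] [Algebra ℂ B] [Algebra Qb B]
    (hB : ∀ a : Qb, algebraMap Qb B a = algebraMap ℂ B (algebraMap Qb ℂ a)) {z : Matrix ι ι B}
    (hz : vc z ∈ pts (vc C) B) : vc (h.map (algebraMap ℂ B) * z) ∈ pts (vc C) B := by
  intro p hp
  let M : Matrix ι ι (MvPolynomial (ι × ι) ℂ) := h.map MvPolynomial.C * gm ℂ
  have hM : ∀ (B : Type) [CommRing B] [Algebra ℂ B] (z : Matrix ι ι B) (n : ι × ι),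
      aeval (vc z) (vc M n) = vc (h.map (algebraMap ℂ B) * z) n := by
    intro B _ _ z n
    have hMn : vc M n = ∑ k, (h.map MvPolynomial.C : Matrix ι ι (MvPolynomial (ι × ι) ℂ)) n.1 k *
        (gm ℂ : Matrix ι ι (MvPolynomial (ι × ι) ℂ)) k n.2 := Matrix.mul_apply
    rw [hMn]
    change _ = (h.map (algebraMap ℂ B) * z) n.1 n.2
    rw [Matrix.mul_apply, map_sum]
    refine Finset.sum_congr rfl fun k _ => ?_
    rw [map_mul, Matrix.map_apply, algHom_C, Matrix.map_apply]
    change _ * aeval (vc z) (X (k, n.2)) = _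
    rw [aeval_X]
    rfl
  have hd : aeval (vc C) (gm Qb : Matrix ι ι (MvPolynomial (ι × ι) Qb)).det ≠ 0 := by
    rw [aeval_det]
    exact det_ne hC
  have h1 := null_pts (vc C) _ hd (aeval (vc M) p) ?_ B hB hz
  · rw [aeval_subst hB] at h1
    simp only [hM] at h1
    exact h1
  · intro y hy hdy
    let Y : Matrix ι ι Qb := Matrix.of fun i j => y (i, j)
    have e1 : (fun n => ((y n : Qb) : ℂ)) = vc (Y.map (algebraMap Qb ℂ)) := rfl
    have h2 := aeval_subst (B := ℂ) (fun _ => rfl) (vc M) p (fun n => ((y n : Qb) : ℂ))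
    rw [e1] at h2 hy hdy ⊢
    simp only [hM] at h2
    rw [aeval_det] at hdy
    have h3 := hh Y hy ((Matrix.isUnit_iff_isUnit_det _).2 (isUnit_iff_ne_zero.2 hdy)) p hp
    rw [← coe_aeval_eq_eval]
    change aeval _ _ = _
    rw [h2]
    exact h3

/-- Matrices over the dual numbers. -/
def epM (z w : Matrix ι ι ℂ) : Matrix ι ι (DualNumber ℂ) :=
  Matrix.of fun i j => TrivSqZeroExt.inl (z i j) + TrivSqZeroExt.inr (w i j)

theorem vc_epM (z w : Matrix ι ι ℂ) : vc (epM z w) = ep (vc z) (vc w) := rfl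

theorem mul_epM (h z w : Matrix ι ι ℂ) :
    h.map (algebraMap ℂ (DualNumber ℂ)) * epM z w = epM (h * z) (h * w) := by
  have h1 : ∀ a : ℂ, algebraMap ℂ (DualNumber ℂ) a = TrivSqZeroExt.inl a := fun _ => rfl
  ext i j
  · rw [Matrix.mul_apply, TrivSqZeroExt.fst_sum]
    simp [epM, Matrix.mul_apply, h1]
  · rw [Matrix.mul_apply, TrivSqZeroExt.snd_sum]
    simp [epM, Matrix.mul_apply, h1]

/-- The tangent vectors at a translated point. -/
theorem ep_mulLeft {C : Matrix ι ι ℂ} (hC : IsUnit C) {h : Matrix ι ι ℂ}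
    (hh : ∀ z : Matrix ι ι Qb, vc (z.map (algebraMap Qb ℂ)) ∈ clos (vc C) →
      IsUnit (z.map (algebraMap Qb ℂ)) → vc (h * z.map (algebraMap Qb ℂ)) ∈ clos (vc C))
    {z w : Matrix ι ι ℂ} (hz : ep (vc z) (vc w) ∈ pts (vc C) (DualNumber ℂ)) :
    ep (vc (h * z)) (vc (h * w)) ∈ pts (vc C) (DualNumber ℂ) := by
  have h1 := mulLeft hC hh (DualNumber ℂ) (fun _ => rfl) (z := epM z w) hz
  rw [mul_epM] at h1
  exact h1

/-- There is an invertible algebraic point. -/
theorem exists_alg_matrix {C : Matrix ι ι ℂ} (hC : IsUnit C) : ∃ z : Matrix ι ι Qb,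
    vc (z.map (algebraMap Qb ℂ)) ∈ clos (vc C) ∧ IsUnit (z.map (algebraMap Qb ℂ)) := by
  have hd : aeval (vc C) (gm Qb : Matrix ι ι (MvPolynomial (ι × ι) Qb)).det ≠ 0 := by
    rw [aeval_det]
    exact det_ne hC
  obtain ⟨y, hy, hdy⟩ := exists_alg_point (vc C) _ hd
  let Y : Matrix ι ι Qb := Matrix.of fun i j => y (i, j)
  have e1 : (fun n => ((y n : Qb) : ℂ)) = vc (Y.map (algebraMap Qb ℂ)) := rfl
  rw [e1] at hy hdy
  rw [aeval_det] at hdy
  exact ⟨Y, hy, (Matrix.isUnit_iff_isUnit_det _).2 (isUnit_iff_ne_zero.2 hdy)⟩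

/-- The logarithmic derivatives are a tangent space at an algebraic point, hence defined over the
algebraic numbers, if the closure is a torsor. -/
theorem algSpan_of_torsor {C : Matrix ι ι ℂ} (hC : IsUnit C) (hT : IsTorsor C) :
    AlgSpan (logSpace C) := by
  obtain ⟨Z, hZ, hZu⟩ := exists_alg_matrix hC
  set ZC : Matrix ι ι ℂ := Z.map (algebraMap Qb ℂ) with hZC
  -- the tangent spaces at `C` and at `Z`
  have key : ∀ y : Matrix ι ι ℂ, y ∈ logSpace C ↔
      ep (vc ZC) (vc (ZC * y)) ∈ pts (vc C) (DualNumber ℂ) := by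
    intro y
    rw [mem_logSpace hC, mem_derSpace_iff]
    constructor
    · intro h1
      have h2 := ep_mulLeft hC (h := ZC * C⁻¹) (fun z hz hzu =>
        hT ZC C _ hZu hC hzu hZ (self_mem _) hz) h1
      rw [← Matrix.mul_assoc, Matrix.mul_assoc ZC, inv_mul' hC, Matrix.mul_one] at h2
      exact h2
    · intro h1
      have h2 := ep_mulLeft hC (h := C * ZC⁻¹) (fun z hz hzu =>
        hT C ZC _ hC hZu hzu (self_mem _) hZ hz) h1
      rw [← Matrix.mul_assoc, Matrix.mul_assoc C, inv_mul' hZu, Matrix.mul_one] at h2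
      exact h2
  -- the linear equations
  let S : Set (ι × ι → ℂ) := {b | ∃ p : MvPolynomial (ι × ι) Qb, aeval (vc C) p = 0 ∧
    b = fun q => ∑ i, aeval (vc ZC) (pderiv (i, q.2) p) * ZC i q.1}
  have hev : ∀ q : MvPolynomial (ι × ι) Qb, aeval (vc ZC) q ∈ Qb := by
    intro q
    have h1 := aeval_algebraMap_apply ℂ (vc Z) q
    have h2 : (algebraMap Qb ℂ ∘ vc Z) = vc ZC := rfl
    rw [h2] at h1
    rw [h1]
    exact (aeval (vc Z) q : Qb).2
  have hS : ∀ b ∈ S, ∀ n, b n ∈ Qb := by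
    rintro _ ⟨p, -, rfl⟩ n
    exact sum_mem fun i _ => mul_mem (hev _) (Z i n.1).2
  have hsum : ∀ (p : MvPolynomial (ι × ι) Qb) (y : Matrix ι ι ℂ),
      ∑ n, aeval (vc ZC) (pderiv n p) * vc (ZC * y) n =
        ∑ q : ι × ι, (∑ i, aeval (vc ZC) (pderiv (i, q.2) p) * ZC i q.1) * vc y q := by
    intro p y
    rw [Fintype.sum_prod_type, Fintype.sum_prod_type]
    have e1 : ∀ i j, aeval (vc ZC) (pderiv (i, j) p) * vc (ZC * y) (i, j) =
        ∑ k, aeval (vc ZC) (pderiv (i, j) p) * (ZC i k * y k j) := by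
      intro i j
      rw [← Finset.mul_sum]
      rfl
    simp only [e1]
    rw [Finset.sum_comm]
    have e2 : ∀ k j, (∑ i, aeval (vc ZC) (pderiv (i, j) p) * ZC i k) * vc y (k, j) =
        ∑ i, aeval (vc ZC) (pderiv (i, j) p) * (ZC i k * y k j) := by
      intro k j
      rw [Finset.sum_mul]
      refine Finset.sum_congr rfl fun i _ => ?_
      rw [mul_assoc]
      rfl
    simp only [e2]
    rw [Finset.sum_comm (s := (Finset.univ : Finset ι)) (t := (Finset.univ : Finset ι))
      (f := fun k j => ∑ i, aeval (vc ZC) (pderiv (i, j) p) * (ZC i k * y k j))]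
    refine Finset.sum_congr rfl fun j _ => ?_
    rw [Finset.sum_comm]
  have hlin : ∀ y : Matrix ι ι ℂ, y ∈ logSpace C ↔ ∀ b ∈ S, ∑ n, b n * vc y n = 0 := by
    intro y
    rw [key]
    constructor
    · rintro h1 _ ⟨p, hp, rfl⟩
      have h2 := congrArg TrivSqZeroExt.snd (h1 p hp)
      rw [snd_aeval_ep, TrivSqZeroExt.snd_zero, hsum] at h2
      exact h2
    · intro h1 p hp
      ext
      · rw [fst_aeval_ep, TrivSqZeroExt.fst_zero]
        exact hZ p hp
      · rw [snd_aeval_ep, TrivSqZeroExt.snd_zero, hsum]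
        exact h1 _ ⟨p, hp, rfl⟩
  intro y hy
  have h1 := rational_span Qb S hS ((hlin y).1 hy)
  let L : (ι × ι → ℂ) →ₗ[ℂ] Matrix ι ι ℂ :=
    { toFun := fun w => Matrix.of fun i j => w (i, j)
      map_add' := fun _ _ => rfl
      map_smul' := fun _ _ => rfl }
  have h2 : L (vc y) ∈ (Submodule.span ℂ
      {u : ι × ι → ℂ | (∀ i, u i ∈ Qb) ∧ ∀ b ∈ S, ∑ i, b i * u i = 0}).map L := ⟨_, h1, rfl⟩
  rw [Submodule.map_span] at h2
  refine Submodule.span_mono ?_ h2
  rintro _ ⟨u, ⟨hu1, hu2⟩, rfl⟩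
  exact ⟨(hlin _).2 hu2, fun i j => hu1 (i, j)⟩

end

end Pool.Agent.W537.TT
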